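import Mathlib

/-! Polynomial functions on groups. -/

set_option autoImplicit false
set_option linter.unusedSectionVars false

namespace Pool.Agent.Lib.MP_8f66f0_al_Aut

section defs

variable {F : Type*} [Group F] {S : Type*} [CommRing S]

/-- The difference operator. -/
def dif (S : Type*) [CommRing S] (g : F) : (F → S) →ₗ[S] (F → S) where
  toFun f := fun x => f (x * g) - f x
  map_add' f f' := by
    funext x
    simp only [Pi.add_apply]
    ring
  map_smul' c f := by
    funext x
    simp only [Pi.smul_apply, smul_eq_mul, RingHom.id_apply]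
    ring

lemma dif_apply (g : F) (f : F → S) (x : F) : dif S g f x = f (x * g) - f x := rfl

/-- The functions killed by the `n`-th power of the ideal generated by `q` and the augmentation
ideal. -/
def pol (F : Type*) [Group F] {S : Type*} [CommRing S] (q : S) : ℕ → Submodule S (F → S)
  | 0 => ⊥
  | n + 1 => (pol F q n).comap (q • LinearMap.id) ⊓ ⨅ g : F, (pol F q n).comap (dif S g)

lemma pol_zero (q : S) : pol F q 0 = ⊥ := rfl

lemma mem_pol_zero {q : S} {f : F → S} : f ∈ pol F q 0 ↔ f = 0 := by
  rw [pol_zero, Submodule.mem_bot]

lemma mem_pol_succ {q : S} {n : ℕ} {f : F → S} :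
    f ∈ pol F q (n + 1) ↔ q • f ∈ pol F q n ∧ ∀ g, dif S g f ∈ pol F q n := by
  change f ∈ ((pol F q n).comap (q • LinearMap.id) ⊓ ⨅ g : F, (pol F q n).comap (dif S g) :
    Submodule S (F → S)) ↔ _
  rw [Submodule.mem_inf, Submodule.mem_iInf, Submodule.mem_comap]
  rfl

lemma pol_le_succ (q : S) (n : ℕ) : pol F q n ≤ pol F q (n + 1) := by
  induction n with
  | zero =>
    intro f hf
    rw [mem_pol_zero] at hf
    subst hf
    exact Submodule.zero_mem _
  | succ n ih =>
    intro f hf
    rw [mem_pol_succ] at hf ⊢
    exact ⟨ih hf.1, fun g => ih (hf.2 g)⟩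

lemma pol_mono (q : S) {n m : ℕ} (h : n ≤ m) : pol F q n ≤ pol F q m := by
  induction m, h using Nat.le_induction with
  | base => exact le_rfl
  | succ m _ ih => exact ih.trans (pol_le_succ q m)

lemma pol_comp {F' : Type*} [Group F'] (φ : F →* F') {q : S} {n : ℕ} {f : F' → S}
    (hf : f ∈ pol F' q n) : f ∘ φ ∈ pol F q n := by
  induction n generalizing f with
  | zero =>
    rw [mem_pol_zero] at hf ⊢
    subst hf
    rfl
  | succ n ih =>
    rw [mem_pol_succ] at hf ⊢
    refine ⟨ih hf.1, fun g => ?_⟩
    have h1 : dif S g (f ∘ φ) = (dif S (φ g) f) ∘ φ := by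
      funext x
      rw [dif_apply, Function.comp_apply, Function.comp_apply, Function.comp_apply, dif_apply,
        map_mul]
    rw [h1]
    exact ih (hf.2 _)

/-- Constant functions. -/
lemma const_of_mem_one {q : S} {f : F → S} (hf : f ∈ pol F q 1) (x : F) : f x = f 1 := by
  rw [mem_pol_succ] at hf
  have h := hf.2 x
  rw [mem_pol_zero] at h
  have h1 := congrFun h 1
  rw [dif_apply, one_mul, Pi.zero_apply, sub_eq_zero] at h1
  exact h1

/-- Left differences. -/
lemma ldif_mem {q : S} {n : ℕ} {f : F → S} (hf : f ∈ pol F q (n + 1)) (a : F) :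
    (fun x => f (a * x) - f x) ∈ pol F q n := by
  induction n generalizing f with
  | zero =>
    rw [mem_pol_zero]
    funext x
    rw [const_of_mem_one hf, const_of_mem_one hf x, sub_self]
    rfl
  | succ n ih =>
    rw [mem_pol_succ] at hf ⊢
    constructor
    · have h1 := ih hf.1
      have h2 : (q • fun x => f (a * x) - f x) = fun x => (q • f) (a * x) - (q • f) x := by
        funext x
        simp only [Pi.smul_apply, smul_eq_mul]
        ring
      rw [h2]
      exact h1
    · intro g
      have h1 := ih (hf.2 g)
      have h2 : dif S g (fun x => f (a * x) - f x) =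
          fun x => (dif S g f) (a * x) - (dif S g f) x := by
        funext x
        rw [dif_apply, dif_apply, dif_apply, mul_assoc]
        ring
      rw [h2]
      exact h1

/-- Differences are additive up to functions of lower degree. -/
lemma dif_mul_mem {q : S} {n : ℕ} {f : F → S} (hf : f ∈ pol F q (n + 2)) (g h : F) :
    dif S (g * h) f - dif S g f - dif S h f ∈ pol F q n := by
  have h1 := (mem_pol_succ.mp ((mem_pol_succ.mp hf).2 h)).2 g
  have h2 : dif S (g * h) f - dif S g f - dif S h f = dif S g (dif S h f) := by
    funext x
    simp only [Pi.sub_apply, dif_apply, mul_assoc]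
    ring
  rw [h2]
  exact h1

/-- Functions with differences of bounded degree. -/
lemma mem_of_dif {q : S} {n e : ℕ} {f : F → S} (h : ∀ g, dif S g f ∈ pol F q n)
    (he : q ^ e • f = 0) : f ∈ pol F q (n + e) := by
  induction e generalizing f with
  | zero =>
    rw [pow_zero, one_smul] at he
    subst he
    exact Submodule.zero_mem _
  | succ e ih =>
    rw [← add_assoc, mem_pol_succ]
    constructor
    · refine ih (fun g => ?_) ?_
      · rw [map_smul]
        exact Submodule.smul_mem _ _ (h g)
      · rw [smul_smul, ← pow_succ]
        exact he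
    · exact fun g => pol_mono q (Nat.le_add_right _ _) (h g)

/-- Polynomial functions with integer values, reduced modulo something. -/
lemma cast_mem {q : S} {e : ℕ} (hq : q ^ e = 0) {n : ℕ} {f : F → ℤ} (hf : f ∈ pol F (0 : ℤ) n) :
    (fun x => (f x : S)) ∈ pol F q (n * e) := by
  induction n generalizing f with
  | zero =>
    rw [mem_pol_zero] at hf
    subst hf
    have h1 : (fun x : F => (((0 : F → ℤ) x : ℤ) : S)) = 0 := by
      funext x
      simp
    rw [h1]
    exact Submodule.zero_mem _
  | succ n ih =>
    rw [Nat.succ_mul]
    refine mem_of_dif (fun g => ?_) (by rw [hq, zero_smul])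
    have h1 := ih ((mem_pol_succ.mp hf).2 g)
    have h2 : dif S g (fun x => (f x : S)) = fun x => ((dif ℤ g f x : ℤ) : S) := by
      funext x
      rw [dif_apply, dif_apply, Int.cast_sub]
    rw [h2]
    exact h1

end defs

section noetherian

variable {F : Type*} [Group F] {S : Type*} [CommRing S]

lemma fixed_of_generators {f : F → S} {T : Set F} (hT : Subgroup.closure T = ⊤)
    (h : ∀ s ∈ T, dif S s f = 0) (x : F) : f x = f 1 := by
  set K : Subgroup F :=
    { carrier := {g | ∀ y, f (y * g) = f y}
      one_mem' := fun y => by rw [mul_one]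
      mul_mem' := by
        intro a b ha hb y
        rw [← mul_assoc, hb, ha]
      inv_mem' := by
        intro a ha y
        rw [← ha (y * a⁻¹), inv_mul_cancel_right] } with hK
  have h1 : Subgroup.closure T ≤ K := by
    rw [Subgroup.closure_le]
    intro s hs y
    have := congrFun (h s hs) y
    rw [dif_apply, Pi.zero_apply, sub_eq_zero] at this
    exact this
  rw [hT] at h1
  have h2 := h1 (Subgroup.mem_top x) 1
  rwa [one_mul] at h2

theorem pol_noetherian [IsNoetherianRing S] [hF : Group.FG F] (q : S) (n : ℕ) :
    IsNoetherian S (pol F q n) := by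
  induction n with
  | zero =>
    rw [pol_zero]
    infer_instance
  | succ n ih =>
    obtain ⟨T, hT⟩ := Group.fg_def.mp hF
    let L : pol F q (n + 1) →ₗ[S] (S × (T → pol F q n)) :=
      { toFun := fun f => (f.1 1, fun s => ⟨dif S s.1 f.1, (mem_pol_succ.mp f.2).2 _⟩)
        map_add' := by
          intro f f'
          apply Prod.ext
          · rfl
          · funext s
            apply Subtype.ext
            exact map_add _ _ _
        map_smul' := by
          intro c f
          apply Prod.ext
          · rfl
          · funext s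
            apply Subtype.ext
            exact map_smul _ _ _ }
    refine isNoetherian_of_injective L ?_
    rw [← LinearMap.ker_eq_bot, LinearMap.ker_eq_bot']
    intro f hf
    apply Subtype.ext
    funext x
    have h1 : f.1 1 = 0 := congrArg Prod.fst hf
    have h2 : ∀ s ∈ (T : Set F), dif S s f.1 = 0 := by
      intro s hs
      have h3 := congrFun (congrArg Prod.snd hf) ⟨s, hs⟩
      exact congrArg Subtype.val h3
    rw [fixed_of_generators hT h2 x, h1]
    rfl

end noetherian

end Pool.Agent.Lib.MP_8f66f0_al_Aut
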