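import Mathlib
import Pool.Agent.Lib.MP_8f66f0_al_Aut.Poly

/-! Automorphisms acting trivially on homomorphisms to an abelian group act unipotently on
polynomial functions. -/

set_option autoImplicit false
set_option linter.unusedSectionVars false

namespace Pool.Agent.Lib.MP_8f66f0_al_Aut

section inv

variable {F : Type*} [Group F]

/-- `φ` preserves all homomorphisms to `A`. -/
def HomInv (A : Type*) [AddCommGroup A] (φ : F →* F) : Prop :=
  ∀ (l : F →* Multiplicative A) (y : F), l (φ y) = l y

/-- The homomorphisms to `A` separate the elements of `W`. -/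
def SepBy (A W : Type*) [AddCommGroup A] [AddCommGroup W] : Prop :=
  ∀ w : W, (∀ h : W →+ A, h w = 0) → w = 0

lemma HomInv.of_sepBy {A W : Type*} [AddCommGroup A] [AddCommGroup W] {φ : F →* F}
    (hφ : HomInv A φ) (hW : SepBy A W) : HomInv W φ := by
  intro l y
  have h1 : Multiplicative.toAdd (l (φ y)) - Multiplicative.toAdd (l y) = 0 := by
    apply hW
    intro h
    have h2 := hφ ((AddMonoidHom.toMultiplicative h).comp l) y
    rw [map_sub, sub_eq_zero]
    exact h2
  rw [sub_eq_zero] at h1
  exact h1

variable {S : Type*} [CommRing S]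

/-- The graded pieces. -/
abbrev GrPol (F : Type*) [Group F] {S : Type*} [CommRing S] (q : S) (n : ℕ) : Type _ :=
  (pol F q (n + 1)) ⧸ (pol F q n).submoduleOf (pol F q (n + 1))

/-- The leading term of a polynomial function, as a homomorphism. -/
noncomputable def lead {q : S} {n : ℕ} {f : F → S} (hf : f ∈ pol F q (n + 2)) :
    F →* Multiplicative (GrPol F q n) where
  toFun g := Multiplicative.ofAdd (Submodule.Quotient.mk ⟨dif S g f, (mem_pol_succ.mp hf).2 g⟩)
  map_one' := by
    have h1 : (⟨dif S 1 f, (mem_pol_succ.mp hf).2 1⟩ : pol F q (n + 1)) = 0 := by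
      apply Subtype.ext
      funext x
      change f (x * 1) - f x = 0
      rw [mul_one, sub_self]
    rw [h1]
    rfl
  map_mul' g h := by
    have h1 : (Submodule.Quotient.mk ⟨dif S (g * h) f, (mem_pol_succ.mp hf).2 (g * h)⟩ :
        GrPol F q n) = Submodule.Quotient.mk ⟨dif S g f, (mem_pol_succ.mp hf).2 g⟩ +
          Submodule.Quotient.mk ⟨dif S h f, (mem_pol_succ.mp hf).2 h⟩ := by
      rw [← Submodule.Quotient.mk_add, Submodule.Quotient.eq]
      change dif S (g * h) f - (dif S g f + dif S h f) ∈ pol F q n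
      rw [← sub_sub]
      exact dif_mul_mem hf g h
    rw [h1]
    rfl

lemma lead_eq_iff {q : S} {n : ℕ} {f : F → S} (hf : f ∈ pol F q (n + 2)) (g h : F) :
    lead hf g = lead hf h ↔ dif S g f - dif S h f ∈ pol F q n := by
  change Submodule.Quotient.mk _ = Submodule.Quotient.mk _ ↔ _
  rw [Submodule.Quotient.eq]
  rfl

/-- Affine maps with trivial linear part act unipotently. -/
theorem comp_sub_mem {A : Type*} [AddCommGroup A] {q : S} (hW : ∀ n, SepBy A (GrPol F q n))
    {φ : F →* F} (hφ : HomInv A φ) {n : ℕ} {f : F → S} (hf : f ∈ pol F q (n + 1)) :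
    (fun x => f (φ x) - f x) ∈ pol F q n := by
  induction n generalizing f with
  | zero =>
    rw [mem_pol_zero]
    funext x
    rw [const_of_mem_one hf, const_of_mem_one hf x, sub_self]
    rfl
  | succ n ih =>
    rw [mem_pol_succ]
    constructor
    · have h1 := ih (mem_pol_succ.mp hf).1
      have h2 : (q • fun x => f (φ x) - f x) = fun x => (q • f) (φ x) - (q • f) x := by
        funext x
        simp only [Pi.smul_apply, smul_eq_mul]
        ring
      rw [h2]
      exact h1
    · intro g
      have h1 := ih ((mem_pol_succ.mp hf).2 (φ g))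
      have h2 : dif S (φ g) f - dif S g f ∈ pol F q n :=
        (lead_eq_iff hf _ _).mp (hφ.of_sepBy (hW n) (lead hf) g)
      have h3 : dif S g (fun x => f (φ x) - f x) =
          (fun x => (dif S (φ g) f) (φ x) - (dif S (φ g) f) x) + (dif S (φ g) f - dif S g f) := by
        funext x
        simp only [Pi.add_apply, Pi.sub_apply, dif_apply, map_mul]
        ring
      rw [h3]
      exact Submodule.add_mem _ h1 h2

theorem affine_sub_mem {A : Type*} [AddCommGroup A] {q : S} (hW : ∀ n, SepBy A (GrPol F q n))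
    {φ : F →* F} (hφ : HomInv A φ) (a : F) {n : ℕ} {f : F → S} (hf : f ∈ pol F q (n + 1)) :
    (fun x => f (a * φ x) - f x) ∈ pol F q n := by
  have h1 := comp_sub_mem hW hφ hf
  have h2 : (fun x => f (a * φ x) - f (φ x)) ∈ pol F q n := by
    have h3 := pol_comp φ (ldif_mem hf a)
    exact h3
  have h4 : (fun x => f (a * φ x) - f x) =
      (fun x => f (a * φ x) - f (φ x)) + fun x => f (φ x) - f x := by
    funext x
    simp only [Pi.add_apply]
    ring
  rw [h4]
  exact Submodule.add_mem _ h2 h1

end inv

section cases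

variable {F : Type*} [Group F]

lemma pol_torsionFree {n : ℕ} {f : F → ℤ} {N : ℤ} (hN : N ≠ 0)
    (h : N • f ∈ pol F (0 : ℤ) n) : f ∈ pol F (0 : ℤ) n := by
  induction n generalizing f with
  | zero =>
    rw [mem_pol_zero] at h ⊢
    exact (smul_eq_zero.mp h).resolve_left hN
  | succ n ih =>
    rw [mem_pol_succ] at h ⊢
    refine ⟨by rw [zero_smul]; exact Submodule.zero_mem _, fun g => ih ?_⟩
    have h1 := h.2 g
    rwa [map_smul] at h1

lemma sepBy_int [Group.FG F] (n : ℕ) : SepBy ℤ (GrPol F (0 : ℤ) n) := by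
  have := pol_noetherian (F := F) (0 : ℤ) (n + 1)
  have htf : Module.IsTorsionFree ℤ (GrPol F (0 : ℤ) n) := by
    rw [Module.isTorsionFree_iff_smul_eq_zero]
    intro N w h
    by_cases hN : N = 0
    · exact Or.inl hN
    · right
      obtain ⟨u, rfl⟩ := Submodule.Quotient.mk_surjective _ w
      rw [← Submodule.Quotient.mk_smul, Submodule.Quotient.mk_eq_zero] at h
      rw [Submodule.Quotient.mk_eq_zero]
      exact pol_torsionFree hN h
  have : Module.Finite ℤ (GrPol F (0 : ℤ) n) := inferInstance
  have : Module.Free ℤ (GrPol F (0 : ℤ) n) := Module.free_of_finite_type_torsion_free'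
  intro w hw
  rw [← Module.forall_dual_apply_eq_zero_iff ℤ]
  exact fun h => hw h.toAddMonoidHom

lemma sepBy_zmod {q : ℕ} [Fact q.Prime] {V : Type*} [AddCommGroup V] [Module (ZMod q) V] :
    SepBy (ZMod q) V := by
  intro w hw
  exact (Module.forall_dual_apply_eq_zero_iff (ZMod q) w).mp fun h => hw h.toAddMonoidHom

lemma sepBy_mod {q : ℕ} (hq : q.Prime) {S : Type*} [CommRing S] (n : ℕ) :
    SepBy (ZMod q) (GrPol F (q : S) n) := by
  have := Fact.mk hq
  have h0 : ∀ w : GrPol F (q : S) n, q • w = 0 := by
    intro w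
    obtain ⟨u, rfl⟩ := Submodule.Quotient.mk_surjective _ w
    rw [← Submodule.Quotient.mk_smul, Submodule.Quotient.mk_eq_zero]
    have h1 := (mem_pol_succ.mp u.2).1
    have h2 : ((q • u : pol F (q : S) (n + 1)) : F → S) = (q : S) • (u : F → S) := by
      rw [Submodule.coe_smul_of_tower, Nat.cast_smul_eq_nsmul]
    change ((q • u : pol F (q : S) (n + 1)) : F → S) ∈ pol F (q : S) n
    rw [h2]
    exact h1
  exact @sepBy_zmod q _ (GrPol F (q : S) n) _ (AddCommGroup.zmodModule h0)

end cases

end Pool.Agent.Lib.MP_8f66f0_al_Aut
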