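import Mathlib
import Pool.Agent.Lib.MP_8f66f0_al_Aut.Inv

/-! Groups acting by affine maps: representations on polynomial functions. -/

set_option autoImplicit false
set_option linter.unusedSectionVars false

namespace Pool.Agent.Lib.MP_8f66f0_al_Aut

section action

variable {F : Type*} [Group F] {G X : Type*} [Group G] [MulAction G X]

/-- The group `G` acts on the quotient `X` of `F` by maps induced by affine maps of `F`, and the
polynomial functions on `X` separate the elements of `G`. -/
structure AffineAction (G : Type*) [Group G] {F X : Type*} [Group F] [MulAction G X]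
    (π : F → X) : Prop where
  surj : Function.Surjective π
  lift : ∀ g : G, ∃ (φ : F →* F) (a : F), ∀ y, π (a * φ y) = g • π y
  abel : ∀ x y, π x = π y → Abelianization.of x = Abelianization.of y
  sep : ∀ g : G, g ≠ 1 → ∃ (n : ℕ) (f : X → ℤ), f ∘ π ∈ pol F (0 : ℤ) n ∧ ∃ x, f (g • x) ≠ f x

variable {S : Type*} [CommRing S]

/-- Polynomial functions on `X`. -/
def polX (π : F → X) (q : S) (n : ℕ) : Submodule S (X → S) :=
  (pol F q n).comap (LinearMap.funLeft S S π)

lemma mem_polX {π : F → X} {q : S} {n : ℕ} {f : X → S} :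
    f ∈ polX π q n ↔ f ∘ π ∈ pol F q n := Iff.rfl

lemma ltrans_mem {q : S} {n : ℕ} {f : F → S} (hf : f ∈ pol F q n) (a : F) :
    (fun x => f (a * x)) ∈ pol F q n := by
  cases n with
  | zero =>
    rw [mem_pol_zero] at hf ⊢
    subst hf
    rfl
  | succ n =>
    have h1 := pol_le_succ q n (ldif_mem hf a)
    have h2 : (fun x => f (a * x)) = (fun x => f (a * x) - f x) + f := by
      funext x
      simp
    rw [h2]
    exact Submodule.add_mem _ h1 hf

lemma smul_mem {π : F → X} (hG : AffineAction G π) {q : S} {n : ℕ} {f : X → S}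
    (hf : f ∈ polX π q n) (g : G) : (fun x => f (g • x)) ∈ polX π q n := by
  obtain ⟨φ, a, h⟩ := hG.lift g
  rw [mem_polX] at hf ⊢
  have h1 : (fun x => f (g • x)) ∘ π = (fun x => (f ∘ π) (a * x)) ∘ φ := by
    funext y
    change f (g • π y) = f (π (a * φ y))
    rw [h]
  rw [h1]
  exact pol_comp φ (ltrans_mem hf a)

/-- The representation on polynomial functions. -/
def repX {π : F → X} (hG : AffineAction G π) (q : S) (n : ℕ) :
    G →* (polX π q n →ₗ[S] polX π q n) where
  toFun g :=
    { toFun := fun f => ⟨fun x => f.1 (g⁻¹ • x), smul_mem hG f.2 g⁻¹⟩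
      map_add' := fun f f' => rfl
      map_smul' := fun c f => rfl }
  map_one' := by
    ext f x
    change f.1 ((1 : G)⁻¹ • x) = f.1 x
    rw [inv_one, one_smul]
  map_mul' g h := by
    ext f x
    change f.1 ((g * h)⁻¹ • x) = f.1 (h⁻¹ • g⁻¹ • x)
    rw [mul_inv_rev, mul_smul]

lemma repX_apply {π : F → X} (hG : AffineAction G π) (q : S) (n : ℕ) (g : G)
    (f : polX π q n) (x : X) : (repX hG q n g f).1 x = f.1 (g⁻¹ • x) := rfl

lemma trivial_of_repX {π : F → X} (hG : AffineAction G π) {q : S} {n : ℕ} {g : G}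
    (h : repX hG q n g = 1) {f : X → S} (hf : f ∈ polX π q n) (x : X) : f (g • x) = f x := by
  have h1 := congrArg (fun L : polX π q n →ₗ[S] polX π q n => (L ⟨f, hf⟩).1 (g • x)) h
  change f (g⁻¹ • g • x) = f (g • x) at h1
  rw [inv_smul_smul] at h1
  exact h1.symm

lemma hom_mem {A : Type*} [CommRing A] (l : F →* Multiplicative A) :
    (fun y => Multiplicative.toAdd (l y)) ∈ pol F (0 : A) 2 := by
  rw [mem_pol_succ]
  refine ⟨by rw [zero_smul]; exact Submodule.zero_mem _, fun g => ?_⟩
  rw [mem_pol_succ]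
  refine ⟨by rw [zero_smul]; exact Submodule.zero_mem _, fun h => ?_⟩
  rw [mem_pol_zero]
  funext x
  simp [dif_apply]

lemma homInv_of_trivial {A : Type*} [CommRing A] {π : F → X} (hG : AffineAction G π) {g : G}
    (htriv : ∀ f ∈ polX π (0 : A) 2, ∀ x, f (g • x) = f x) {φ : F →* F} {a : F}
    (hφ : ∀ y, π (a * φ y) = g • π y) : HomInv A φ := by
  intro l
  have habel : ∀ x y, π x = π y → l x = l y := by
    intro x y hxy
    have h1 := hG.abel x y hxy
    have h2 := congrArg (Abelianization.lift l) h1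
    rwa [Abelianization.lift_apply_of, Abelianization.lift_apply_of] at h2
  obtain ⟨s, hs⟩ := hG.surj.hasRightInverse
  set f : X → A := fun x => Multiplicative.toAdd (l (s x)) with hf
  have hfπ : ∀ y, f (π y) = Multiplicative.toAdd (l y) := by
    intro y
    rw [hf]
    dsimp only
    rw [habel (s (π y)) y (hs _)]
  have hfm : f ∈ polX π (0 : A) 2 := by
    rw [mem_polX]
    have : f ∘ π = fun y => Multiplicative.toAdd (l y) := funext hfπ
    rw [this]
    exact hom_mem l
  have h1 : ∀ y, l (a * φ y) = l y := by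
    intro y
    apply Multiplicative.toAdd.injective
    rw [← hfπ, ← hfπ, hφ, htriv f hfm]
  have h2 : l a = 1 := by
    have := h1 1
    rwa [map_one, mul_one, map_one] at this
  intro y
  have := h1 y
  rwa [map_mul, h2, one_mul] at this

lemma unip_mem {A : Type*} [CommRing A] {π : F → X} (hG : AffineAction G π) {q : S}
    (hW : ∀ n, SepBy A (GrPol F q n)) {g : G}
    (htriv : ∀ f ∈ polX π (0 : A) 2, ∀ x, f (g • x) = f x) {n : ℕ} {f : X → S}
    (hf : f ∈ polX π q (n + 1)) : (fun x => f (g • x) - f x) ∈ polX π q n := by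
  obtain ⟨φ, a, hφ⟩ := hG.lift g
  have h1 := affine_sub_mem hW (homInv_of_trivial hG htriv hφ) a (mem_polX.mp hf)
  rw [mem_polX]
  have h2 : (fun x => f (g • x) - f x) ∘ π = fun x => (f ∘ π) (a * φ x) - (f ∘ π) x := by
    funext y
    change f (g • π y) - f (π y) = f (π (a * φ y)) - f (π y)
    rw [hφ]
  rw [h2]
  exact h1

lemma zero_of_mem_polX_zero {π : F → X} (hG : AffineAction G π) {q : S} {f : X → S}
    (hf : f ∈ polX π q 0) : f = 0 := by
  rw [mem_polX, mem_pol_zero] at hf
  funext x
  obtain ⟨y, rfl⟩ := hG.surj x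
  exact congrFun hf y

lemma smul_pow_eq {T : G} {f u : X → S} (h : ∀ x, f (T • x) = f x + u x)
    (hu : ∀ x, u (T • x) = u x) (k : ℕ) (x : X) : f (T ^ k • x) = f x + k * u x := by
  induction k generalizing x with
  | zero => rw [pow_zero, one_smul, Nat.cast_zero, zero_mul, add_zero]
  | succ k ih =>
    rw [pow_succ, mul_smul, ih, h, hu]
    push_cast
    ring

lemma polX_noetherian [IsNoetherianRing S] [Group.FG F] {π : F → X} (hG : AffineAction G π)
    (q : S) (n : ℕ) : IsNoetherian S (polX π q n) := by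
  have := pol_noetherian (F := F) q n
  let L : polX π q n →ₗ[S] pol F q n :=
    { toFun := fun f => ⟨f.1 ∘ π, f.2⟩
      map_add' := fun f f' => rfl
      map_smul' := fun c f => rfl }
  refine isNoetherian_of_injective L ?_
  intro f f' h
  apply Subtype.ext
  funext x
  obtain ⟨y, rfl⟩ := hG.surj x
  exact congrFun (congrArg Subtype.val h) y

/-- An element of infinite order has infinite order on polynomial functions of some degree. -/
lemma exists_degree [Group.FG F] {π : F → X} (hG : AffineAction G π) {g : G}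
    (hg : ∀ N : ℕ, 0 < N → g ^ N ≠ 1) :
    ∃ n : ℕ, ∀ N : ℕ, 0 < N → ¬ ∀ f ∈ polX π (0 : ℤ) n, ∀ x, f (g ^ N • x) = f x := by
  by_contra hcon
  push Not at hcon
  obtain ⟨N2, hN2, htriv⟩ := hcon 2
  set h := g ^ N2 with hh
  have key : ∀ n : ℕ, ∀ f ∈ polX π (0 : ℤ) n, ∀ x, f (h • x) = f x := by
    intro n
    induction n with
    | zero =>
      intro f hf x
      rw [zero_of_mem_polX_zero hG hf]
      rfl
    | succ n ih =>
      intro f hf x
      have hu := unip_mem hG (fun n => sepBy_int (F := F) n) htriv hf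
      obtain ⟨N, hN, hNt⟩ := hcon (n + 1)
      have h1 : f (h ^ N • x) = f x := by
        have h2 : h ^ N = (g ^ N) ^ N2 := by rw [hh, ← pow_mul, ← pow_mul, mul_comm]
        rw [h2]
        have h3 : ∀ (k : ℕ) (x : X), f ((g ^ N) ^ k • x) = f x := by
          intro k
          induction k with
          | zero => intro x; rw [pow_zero, one_smul]
          | succ k ih2 => intro x; rw [pow_succ, mul_smul, ih2, hNt f hf]
        exact h3 N2 x
      rw [smul_pow_eq (T := h) (f := f) (u := fun x => f (h • x) - f x) (fun x => by ring)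
        (fun x => ih _ hu x)] at h1
      have h4 : (N : ℤ) * (f (h • x) - f x) = 0 := by linarith
      rcases mul_eq_zero.mp h4 with h5 | h5
      · exact absurd (Nat.cast_eq_zero.mp h5) hN.ne'
      · exact sub_eq_zero.mp h5
  obtain ⟨n, f, hf, x, hx⟩ := hG.sep h (hg N2 hN2)
  exact hx (key n f hf x)

/-- An element of infinite order has infinite order in an integral representation. -/
theorem exists_rep_int [Group.FG F] {π : F → X} (hG : AffineAction G π) {g : G}
    (hg : ∀ N : ℕ, 0 < N → g ^ N ≠ 1) :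
    ∃ (m : ℕ) (ρ : G →* Matrix.GeneralLinearGroup (Fin m) ℤ), ∀ N : ℕ, 0 < N → ρ g ^ N ≠ 1 := by
  obtain ⟨n, hn⟩ := exists_degree hG hg
  have hnoeth := polX_noetherian hG (0 : ℤ) n
  have hfin : Module.Finite ℤ (polX π (0 : ℤ) n) := inferInstance
  have hfree : Module.Free ℤ (polX π (0 : ℤ) n) := Module.free_of_finite_type_torsion_free'
  let b := Module.finBasis ℤ (polX π (0 : ℤ) n)
  let e : (polX π (0 : ℤ) n →ₗ[ℤ] polX π (0 : ℤ) n) →* Matrix (Fin _) (Fin _) ℤ :=
    (LinearMap.toMatrixAlgEquiv b).toAlgHom.toRingHom.toMonoidHom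
  have he : Function.Injective e := (LinearMap.toMatrixAlgEquiv b).injective
  refine ⟨_, (e.comp (repX hG (0 : ℤ) n)).toHomUnits, fun N hN h => hn N hN ?_⟩
  rw [← map_pow] at h
  have h1 := congrArg Units.val h
  rw [MonoidHom.coe_toHomUnits, Units.val_one, MonoidHom.comp_apply] at h1
  have h2 : repX hG (0 : ℤ) n (g ^ N) = 1 := he (by rw [h1, map_one])
  exact fun f hf x => trivial_of_repX hG h2 hf x

end action

end Pool.Agent.Lib.MP_8f66f0_al_Aut
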