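import Mathlib
import Pool.Agent.Lib.MP_8f66f0_al_Aut.Action
import Pool.Agent.Lib.MP_8f66f0_al_Dennis.ClassDefs

/-! Groups acting by affine maps are virtually residually finite `q`-groups. -/

set_option autoImplicit false
set_option linter.unusedSectionVars false

namespace Pool.Agent.Lib.MP_8f66f0_al_Aut

open Pool.Agent.Lib.MP_8f66f0_al_Dennis (ResiduallyFiniteQ VirtuallyResiduallyFiniteQ)

section resid

variable {F : Type*} [Group F] {G X : Type*} [Group G] [MulAction G X]

lemma trivial_pow {A : Type*} {f : X → A} {g : G} (h : ∀ x, f (g • x) = f x) (k : ℕ) (x : X) :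
    f (g ^ k • x) = f x := by
  induction k generalizing x with
  | zero => rw [pow_zero, one_smul]
  | succ k ih => rw [pow_succ, mul_smul, ih, h]

/-- Powers of unipotent elements. -/
lemma pow_trivial {q : ℕ} (hq : q.Prime) {S : Type*} [CommRing S] {π : F → X}
    (hG : AffineAction G π) {g : G}
    (htriv : ∀ f ∈ polX π (0 : ZMod q) 2, ∀ x, f (g • x) = f x) (j : ℕ) :
    ∀ f ∈ polX π (q : S) j, ∀ x, f (g ^ (q ^ j) • x) = f x := by
  induction j with
  | zero =>
    intro f hf x
    rw [zero_of_mem_polX_zero hG hf]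
    rfl
  | succ j ih =>
    intro f hf x
    have hT : ∀ f ∈ polX π (0 : ZMod q) 2, ∀ x, f (g ^ (q ^ j) • x) = f x := fun f hf x =>
      trivial_pow (htriv f hf) _ x
    have hu := unip_mem hG (fun n => sepBy_mod (F := F) hq (S := S) n) hT hf
    have hqf : (q : S) • f ∈ polX π (q : S) j := (mem_pol_succ.mp (mem_polX.mp hf)).1
    have h1 := ih _ hqf x
    have h2 := smul_pow_eq (T := g ^ (q ^ j)) (f := f)
      (u := fun x => f (g ^ (q ^ j) • x) - f x) (fun x => by ring) (fun x => ih _ hu x) q x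
    rw [pow_succ, pow_mul, h2]
    simp only [Pi.smul_apply, smul_eq_mul] at h1
    rw [mul_sub, h1, sub_self, add_zero]

/-- Groups acting by affine maps are virtually residually finite `q`-groups. -/
theorem virtuallyResiduallyFiniteQ [Group.FG F] {π : F → X} (hG : AffineAction G π) {q : ℕ}
    (hq : q.Prime) : VirtuallyResiduallyFiniteQ q G := by
  have := Fact.mk hq
  -- the subgroup of finite index
  have hn0 := polX_noetherian hG (0 : ZMod q) 2
  have hf0 : Finite (polX π (0 : ZMod q) 2) := Module.finite_of_finite (ZMod q)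
  have hf1 : Finite (polX π (0 : ZMod q) 2 →ₗ[ZMod q] polX π (0 : ZMod q) 2) :=
    Finite.of_injective (fun L => (L : polX π (0 : ZMod q) 2 → polX π (0 : ZMod q) 2))
      DFunLike.coe_injective
  set H : Subgroup G := (repX hG (0 : ZMod q) 2).toHomUnits.ker with hH
  have hHtriv : ∀ g ∈ H, ∀ f ∈ polX π (0 : ZMod q) 2, ∀ x, f (g • x) = f x := by
    intro g hg f hf x
    rw [hH, MonoidHom.mem_ker] at hg
    exact trivial_of_repX hG (congrArg Units.val hg) hf x
  refine ⟨H, inferInstance, ?_⟩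
  intro h hh
  have hh1 : (h : G) ≠ 1 := fun h1 => hh (Subtype.ext h1)
  obtain ⟨n, f, hf, x, hx⟩ := hG.sep h hh1
  set d : ℤ := f ((h : G) • x) - f x with hd
  have hd0 : d ≠ 0 := sub_ne_zero.mpr hx
  set e : ℕ := d.natAbs with he
  have hne : NeZero (q ^ e) := ⟨(pow_pos hq.pos e).ne'⟩
  have hpe : ((q : ZMod (q ^ e))) ^ e = 0 := by
    rw [← Nat.cast_pow, ZMod.natCast_self]
  have hfS := cast_mem (F := F) hpe hf
  have hn1 := polX_noetherian hG (q : ZMod (q ^ e)) (n * e)
  have hf2 : Finite (polX π (q : ZMod (q ^ e)) (n * e)) := Module.finite_of_finite (ZMod (q ^ e))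
  have hf3 : Finite (polX π (q : ZMod (q ^ e)) (n * e) →ₗ[ZMod (q ^ e)]
      polX π (q : ZMod (q ^ e)) (n * e)) :=
    Finite.of_injective (fun L => (L : polX π (q : ZMod (q ^ e)) (n * e) →
      polX π (q : ZMod (q ^ e)) (n * e))) DFunLike.coe_injective
  set r : H →* (polX π (q : ZMod (q ^ e)) (n * e) →ₗ[ZMod (q ^ e)]
      polX π (q : ZMod (q ^ e)) (n * e))ˣ :=
    (repX hG (q : ZMod (q ^ e)) (n * e)).toHomUnits.comp H.subtype with hr
  refine ⟨r.ker, inferInstance, ?_, ?_⟩
  · rw [Subgroup.index_ker]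
    refine (IsPGroup.iff_card (p := q)).mp ?_
    rintro ⟨_, ⟨k, rfl⟩⟩
    refine ⟨n * e, ?_⟩
    apply Subtype.ext
    apply Units.ext
    apply LinearMap.ext
    intro u
    apply Subtype.ext
    funext y
    have h1 := pow_trivial hq (S := ZMod (q ^ e)) hG
      (g := (k : G)⁻¹) (hHtriv _ (H.inv_mem k.2)) (n * e) u.1 u.2 y
    have h2 : ((⟨r k, ⟨k, rfl⟩⟩ : r.range) ^ q ^ (n * e) : r.range).1 = r (k ^ q ^ (n * e)) := by
      rw [map_pow]
      rfl
    rw [h2]
    change u.1 ((((k ^ q ^ (n * e) : H) : G))⁻¹ • y) = u.1 y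
    rw [Subgroup.coe_pow, ← inv_pow]
    exact h1
  · intro hker
    rw [MonoidHom.mem_ker] at hker
    have h1 := trivial_of_repX hG (congrArg Units.val hker) (f := fun x => (f x : ZMod (q ^ e)))
      hfS x
    rw [eq_comm, ZMod.intCast_eq_intCast_iff_dvd_sub] at h1
    have h2 : q ^ e ≤ d.natAbs := by
      apply Nat.le_of_dvd (Int.natAbs_pos.mpr hd0)
      have := Int.natAbs_dvd_natAbs.mpr h1
      rwa [Int.natAbs_natCast] at this
    exact absurd (Nat.lt_pow_self hq.one_lt) (not_lt.mpr h2)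

end resid

section subgroup

/-- Virtual residual finiteness passes to subgroups. -/
theorem residuallyFiniteQ_of_injective {q : ℕ} (hq : q.Prime) {G K : Type*} [Group G] [Group K]
    (h : ResiduallyFiniteQ q G) (φ : K →* G) (hφ : Function.Injective φ) :
    ResiduallyFiniteQ q K := by
  intro g hg
  obtain ⟨N, hN, ⟨k, hk⟩, hgN⟩ := h (φ g) (fun h1 => hg (hφ (by rw [h1, map_one])))
  refine ⟨N.comap φ, inferInstance, ?_, fun h1 => hgN h1⟩
  have h2 : (N.comap φ).index ∣ N.index := by
    rw [Subgroup.index_comap]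
    exact Subgroup.relIndex_dvd_index_of_normal N φ.range
  rw [hk, Nat.dvd_prime_pow hq] at h2
  obtain ⟨j, -, hj⟩ := h2
  exact ⟨j, hj⟩

theorem virtuallyResiduallyFiniteQ_of_injective {q : ℕ} (hq : q.Prime) {G K : Type*} [Group G]
    [Group K] (h : VirtuallyResiduallyFiniteQ q G) (φ : K →* G) (hφ : Function.Injective φ) :
    VirtuallyResiduallyFiniteQ q K := by
  obtain ⟨H, hH, hres⟩ := h
  refine ⟨H.comap φ, ⟨?_⟩, ?_⟩
  · rw [Subgroup.index_comap]
    exact (inferInstance : (H.subgroupOf φ.range).FiniteIndex).index_ne_zero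
  refine residuallyFiniteQ_of_injective hq hres (φ.subgroupComap H) ?_
  intro x y hxy
  apply Subtype.ext
  apply hφ
  exact congrArg Subtype.val hxy

end subgroup

end Pool.Agent.Lib.MP_8f66f0_al_Aut
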