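import Mathlib
import Pool.Agent.Lib.MP_8f66f0_al_Aut.Resid

/-! Groups separated by polynomial functions, their automorphism groups and holomorphs. -/

set_option autoImplicit false
set_option linter.unusedSectionVars false

namespace Pool.Agent.Lib.MP_8f66f0_al_Aut

open Pool.Agent.Lib.MP_8f66f0_al_Dennis (ResiduallyFiniteQ VirtuallyResiduallyFiniteQ)

/-- `c` has infinite order in some integral matrix representation of the group. -/
def IntDet {G : Type*} [Group G] (c : G) : Prop :=
  ∃ (m : ℕ) (ρ : G →* Matrix.GeneralLinearGroup (Fin m) ℤ), ∀ N : ℕ, 0 < N → ρ c ^ N ≠ 1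

/-- Every element of infinite order has infinite order in an integral matrix representation, and
the group is virtually residually a finite `q`-group for every prime `q`. -/
structure IntDetected (G : Type*) [Group G] : Prop where
  vrf : ∀ q : ℕ, q.Prime → VirtuallyResiduallyFiniteQ q G
  det : ∀ c : G, (∀ N : ℕ, 0 < N → c ^ N ≠ 1) → IntDet c

/-- Two different elements of `F` are separated by an integer valued function on `F` which is
killed by a power of the augmentation ideal of the integral group ring. -/
def PolySep (F : Type*) [Group F] : Prop :=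
  ∀ x y : F, x ≠ y → ∃ (n : ℕ) (f : F → ℤ), f ∈ pol F (0 : ℤ) n ∧ f x ≠ f y

/-- Upper unitriangular integer matrices. -/
def IsUnitri {m : ℕ} (M : Matrix (Fin m) (Fin m) ℤ) : Prop :=
  ∀ i j, j ≤ i → M i j = (1 : Matrix (Fin m) (Fin m) ℤ) i j

/-- Every nontrivial element of `F` has nontrivial image under some homomorphism to a group of
upper unitriangular integer matrices. -/
def ResUnip (F : Type*) [Group F] : Prop :=
  ∀ g : F, g ≠ 1 → ∃ (m : ℕ) (ρ : F →* Matrix (Fin m) (Fin m) ℤ),
    (∀ h, IsUnitri (ρ h)) ∧ ρ g ≠ 1

section unip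

variable {F : Type*} [Group F]

lemma entry_mem {m : ℕ} {ρ : F →* Matrix (Fin m) (Fin m) ℤ} (hρ : ∀ h, IsUnitri (ρ h)) (n : ℕ) :
    ∀ j : Fin m, j.val ≤ n → ∀ i : Fin m, (fun x => ρ x i j) ∈ pol F (0 : ℤ) (j.val + 1) := by
  induction n with
  | zero =>
    intro j hj i
    rw [mem_pol_succ]
    refine ⟨by rw [zero_smul]; exact Submodule.zero_mem _, fun g => ?_⟩
    have h0 : j.val = 0 := Nat.le_zero.mp hj
    rw [h0, mem_pol_zero]
    funext x
    have h1 : ∀ h, ρ h i j = (1 : Matrix (Fin m) (Fin m) ℤ) i j := fun h =>
      hρ h i j (by rw [Fin.le_def, h0]; exact Nat.zero_le _)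
    rw [dif_apply, h1, h1, sub_self]
    rfl
  | succ n ih =>
    intro j hj i
    rcases Nat.lt_or_ge j.val (n + 1) with hlt | hge
    · exact ih j (Nat.lt_succ_iff.mp hlt) i
    · rw [mem_pol_succ]
      refine ⟨by rw [zero_smul]; exact Submodule.zero_mem _, fun g => ?_⟩
      have h1 : dif ℤ g (fun x => ρ x i j) =
          ∑ k, (ρ g k j - (1 : Matrix (Fin m) (Fin m) ℤ) k j) • fun x => ρ x i k := by
        funext x
        rw [dif_apply, map_mul, Matrix.mul_apply, Finset.sum_apply]
        have h2 : ρ x i j = ∑ k, ρ x i k * (1 : Matrix (Fin m) (Fin m) ℤ) k j := by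
          rw [← Matrix.mul_apply, mul_one]
        rw [h2, ← Finset.sum_sub_distrib]
        refine Finset.sum_congr rfl fun k _ => ?_
        simp only [Pi.smul_apply, smul_eq_mul]
        ring
      rw [h1]
      refine Submodule.sum_mem _ fun k _ => ?_
      by_cases hk : j ≤ k
      · rw [hρ g k j hk, sub_self, zero_smul]
        exact Submodule.zero_mem _
      · have hk' : k.val < j.val := by
          rw [not_le] at hk
          exact hk
        exact Submodule.smul_mem _ _ (pol_mono _ (by omega) (ih k (by omega) i))

lemma ResUnip.polySep (h : ResUnip F) : PolySep F := by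
  intro x y hxy
  obtain ⟨m, ρ, hρ, h1⟩ := h (x * y⁻¹) (fun h2 => hxy (mul_inv_eq_one.mp h2))
  have h3 : ρ x ≠ ρ y := by
    intro h4
    apply h1
    rw [map_mul, h4, ← map_mul, mul_inv_cancel, map_one]
  have h5 : ∃ i j, ρ x i j ≠ ρ y i j := by
    by_contra hcon
    push Not at hcon
    exact h3 (Matrix.ext hcon)
  obtain ⟨i, j, hij⟩ := h5
  exact ⟨_, _, entry_mem hρ j.val j le_rfl i, hij⟩

lemma PolySep.of_injective {F' : Type*} [Group F'] (h : PolySep F) (φ : F' →* F)
    (hφ : Function.Injective φ) : PolySep F' := by
  intro x y hxy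
  obtain ⟨n, f, hf, h1⟩ := h (φ x) (φ y) (fun h2 => hxy (hφ h2))
  exact ⟨n, f ∘ φ, pol_comp φ hf, h1⟩

end unip

section detected

/-- The main criterion. -/
theorem IntDetected.of_affine {F G X : Type*} [Group F] [Group G] [MulAction G X]
    [Group.FG F] {π : F → X} (hG : AffineAction G π) : IntDetected G :=
  ⟨fun _ hq => virtuallyResiduallyFiniteQ hG hq, fun _ hc => exists_rep_int hG hc⟩

theorem IntDetected.of_injective {G K : Type*} [Group G] [Group K] (h : IntDetected G)
    (φ : K →* G) (hφ : Function.Injective φ) : IntDetected K := by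
  refine ⟨fun q hq => virtuallyResiduallyFiniteQ_of_injective hq (h.vrf q hq) φ hφ, ?_⟩
  intro c hc
  obtain ⟨m, ρ, hρ⟩ := h.det (φ c) (fun N hN h1 => hc N hN (hφ (by rw [map_pow, h1, map_one])))
  exact ⟨m, ρ.comp φ, hρ⟩

/-- Automorphism groups. -/
theorem affineAction_mulAut {F : Type*} [Group F] (hF : PolySep F) :
    AffineAction (MulAut F) (id : F → F) where
  surj := Function.surjective_id
  lift := fun g => ⟨g.toMonoidHom, 1, fun y => by
    change 1 * g y = g • y
    rw [one_mul]
    rfl⟩
  abel := fun x y h => by
    change x = y at h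
    rw [h]
  sep := fun g hg => by
    have h1 : ∃ y, g y ≠ y := by
      by_contra hcon
      push Not at hcon
      exact hg (MulEquiv.ext hcon)
    obtain ⟨y, hy⟩ := h1
    obtain ⟨n, f, hf, h2⟩ := hF _ _ hy
    exact ⟨n, f, hf, y, h2⟩

/-- The automorphism group of a finitely generated group which is separated by polynomial
functions. -/
theorem IntDetected.mulAut {F : Type*} [Group F] [Group.FG F] (hF : PolySep F) :
    IntDetected (MulAut F) :=
  IntDetected.of_affine (affineAction_mulAut hF)

/-- Finitely generated groups which are separated by polynomial functions. -/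
theorem affineAction_self {F : Type*} [Group F] (hF : PolySep F) :
    AffineAction F (id : F → F) where
  surj := Function.surjective_id
  lift := fun g => ⟨MonoidHom.id F, g, fun y => rfl⟩
  abel := fun x y h => by
    change x = y at h
    rw [h]
  sep := fun g hg => by
    obtain ⟨n, f, hf, h2⟩ := hF _ _ hg
    refine ⟨n, f, hf, 1, ?_⟩
    rwa [smul_eq_mul, mul_one]

theorem IntDetected.self {F : Type*} [Group F] [Group.FG F] (hF : PolySep F) :
    IntDetected F :=
  IntDetected.of_affine (affineAction_self hF)

/-- The action of the holomorph. -/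
abbrev holAction (F : Type*) [Group F] : MulAction (F ⋊[MonoidHom.id (MulAut F)] MulAut F) F where
  smul g x := g.left * g.right x
  one_smul x := by
    change (1 : F ⋊[MonoidHom.id (MulAut F)] MulAut F).left *
      (1 : F ⋊[MonoidHom.id (MulAut F)] MulAut F).right x = x
    rw [SemidirectProduct.one_left, SemidirectProduct.one_right, one_mul]
    rfl
  mul_smul g h x := by
    change (g * h).left * (g * h).right x = g.left * g.right (h.left * h.right x)
    rw [SemidirectProduct.mul_left, SemidirectProduct.mul_right, map_mul, mul_assoc]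
    rfl

theorem affineAction_hol {F : Type*} [Group F] (hF : PolySep F) :
    @AffineAction (F ⋊[MonoidHom.id (MulAut F)] MulAut F) _ F F _ (holAction F) id :=
  @AffineAction.mk _ _ _ _ _ (holAction F) _ Function.surjective_id
    (fun g => ⟨g.right.toMonoidHom, g.left, fun y => rfl⟩)
    (fun x y h => by
      change x = y at h
      rw [h])
    (fun g hg => by
      by_cases h1 : g.left = 1
      · have h2 : ∃ y, g.right y ≠ y := by
          by_contra hcon
          push Not at hcon
          exact hg (SemidirectProduct.ext h1 (MulEquiv.ext hcon))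
        obtain ⟨y, hy⟩ := h2
        obtain ⟨n, f, hf, h3⟩ := hF _ _ hy
        refine ⟨n, f, hf, y, ?_⟩
        change f (g.left * g.right y) ≠ f y
        rwa [h1, one_mul]
      · obtain ⟨n, f, hf, h3⟩ := hF _ _ h1
        refine ⟨n, f, hf, 1, ?_⟩
        change f (g.left * g.right 1) ≠ f 1
        rwa [map_one, mul_one])

theorem IntDetected.hol {F : Type*} [Group F] [Group.FG F] (hF : PolySep F) :
    IntDetected (F ⋊[MonoidHom.id (MulAut F)] MulAut F) :=
  @IntDetected.of_affine _ _ _ _ _ (holAction F) _ _ (affineAction_hol hF)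

end detected

end Pool.Agent.Lib.MP_8f66f0_al_Aut
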