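import Mathlib
import Pool.Agent.Lib.MP_8f66f0_al_Aut.Sep

/-! The class of groups obtained from automorphism groups: closure properties. -/

set_option autoImplicit false
set_option linter.unusedSectionVars false

namespace Pool.Agent.Lib.MP_8f66f0_al_Aut

open Pool.Agent.Lib.MP_8f66f0_al_Dennis (ResiduallyFiniteQ VirtuallyResiduallyFiniteQ Admissible
  PowerSeparated)

section det

/-- Representations on finitely generated torsion-free abelian groups. -/
lemma intDet_of_module {G V : Type*} [Group G] [AddCommGroup V] [IsNoetherian ℤ V]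
    [Module.IsTorsionFree ℤ V] (r : G →* (V →ₗ[ℤ] V)) {c : G}
    (h : ∀ N : ℕ, 0 < N → r (c ^ N) ≠ 1) : IntDet c := by
  have hfin : Module.Finite ℤ V := inferInstance
  have hfree : Module.Free ℤ V := Module.free_of_finite_type_torsion_free'
  let b := Module.finBasis ℤ V
  let e : (V →ₗ[ℤ] V) →* Matrix (Fin _) (Fin _) ℤ :=
    (LinearMap.toMatrixAlgEquiv b).toAlgHom.toRingHom.toMonoidHom
  have he : Function.Injective e := (LinearMap.toMatrixAlgEquiv b).injective
  refine ⟨_, (e.comp r).toHomUnits, fun N hN h1 => h N hN ?_⟩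
  rw [← map_pow] at h1
  have h2 := congrArg Units.val h1
  rw [MonoidHom.coe_toHomUnits, Units.val_one, MonoidHom.comp_apply] at h2
  exact he (by rw [h2, map_one])

end det

section prod

variable {G K : Type*} [Group G] [Group K]

lemma ResiduallyFiniteQ.prod {q : ℕ} (hG : ResiduallyFiniteQ q G) (hK : ResiduallyFiniteQ q K) :
    ResiduallyFiniteQ q (G × K) := by
  rintro ⟨g, k⟩ hne
  by_cases hg : g = 1
  · have hk : k ≠ 1 := by
      rintro rfl
      exact hne (by rw [hg]; rfl)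
    obtain ⟨N, hN, ⟨j, hj⟩, hkN⟩ := hK k hk
    refine ⟨N.comap (MonoidHom.snd G K), inferInstance, ⟨j, ?_⟩, hkN⟩
    rw [Subgroup.index_comap_of_surjective _ Prod.snd_surjective, hj]
  · obtain ⟨N, hN, ⟨j, hj⟩, hgN⟩ := hG g hg
    refine ⟨N.comap (MonoidHom.fst G K), inferInstance, ⟨j, ?_⟩, hgN⟩
    rw [Subgroup.index_comap_of_surjective _ Prod.fst_surjective, hj]

lemma VirtuallyResiduallyFiniteQ.prod {q : ℕ} (hq : q.Prime)
    (hG : VirtuallyResiduallyFiniteQ q G)
    (hK : VirtuallyResiduallyFiniteQ q K) : VirtuallyResiduallyFiniteQ q (G × K) := by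
  obtain ⟨H, hH, hHr⟩ := hG
  obtain ⟨L, hL, hLr⟩ := hK
  refine ⟨H.prod L, ⟨?_⟩, ?_⟩
  · rw [Subgroup.index_prod]
    exact mul_ne_zero hH.index_ne_zero hL.index_ne_zero
  · exact residuallyFiniteQ_of_injective hq (ResiduallyFiniteQ.prod hHr hLr)
      (H.prodEquiv L).toMonoidHom (H.prodEquiv L).injective

theorem IntDetected.prod (hG : IntDetected G) (hK : IntDetected K) : IntDetected (G × K) := by
  refine ⟨fun q hq => VirtuallyResiduallyFiniteQ.prod hq (hG.vrf q hq) (hK.vrf q hq), ?_⟩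
  rintro ⟨g, k⟩ hc
  by_cases hg : ∀ N : ℕ, 0 < N → g ^ N ≠ 1
  · obtain ⟨m, ρ, hρ⟩ := hG.det g hg
    exact ⟨m, ρ.comp (MonoidHom.fst G K), hρ⟩
  · push Not at hg
    obtain ⟨N, hN, hgN⟩ := hg
    have hk : ∀ M : ℕ, 0 < M → k ^ M ≠ 1 := by
      intro M hM hkM
      refine hc (N * M) (Nat.mul_pos hN hM) ?_
      rw [Prod.pow_mk, pow_mul, hgN, one_pow, mul_comm, pow_mul, hkM, one_pow]
      rfl
    obtain ⟨m, ρ, hρ⟩ := hK.det k hk
    exact ⟨m, ρ.comp (MonoidHom.snd G K), hρ⟩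

end prod

section induced

variable {G : Type*} [Group G]

/-- The module of the induced representation. -/
def indMod (H : Subgroup G) {m : ℕ} (ρ : H →* Matrix.GeneralLinearGroup (Fin m) ℤ) :
    Submodule ℤ (G → (Fin m → ℤ)) where
  carrier := {f | ∀ (x : G) (h : H), f (x * h) = (ρ h⁻¹).val.mulVec (f x)}
  zero_mem' := by
    intro x h
    change (0 : Fin m → ℤ) = (ρ h⁻¹).val.mulVec 0
    rw [Matrix.mulVec_zero]
  add_mem' := by
    intro f f' hf hf' x h
    rw [Pi.add_apply, Pi.add_apply, hf, hf', Matrix.mulVec_add]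
  smul_mem' := by
    intro c f hf x h
    rw [Pi.smul_apply, Pi.smul_apply, hf, Matrix.mulVec_smul]

/-- The induced representation. -/
def indRep (H : Subgroup G) {m : ℕ} (ρ : H →* Matrix.GeneralLinearGroup (Fin m) ℤ) :
    G →* (indMod H ρ →ₗ[ℤ] indMod H ρ) where
  toFun g :=
    { toFun := fun f => ⟨fun x => f.1 (g⁻¹ * x), fun x h => by
        change f.1 (g⁻¹ * (x * h)) = (ρ h⁻¹).val.mulVec (f.1 (g⁻¹ * x))
        rw [← mul_assoc]
        exact f.2 _ h⟩
      map_add' := fun f f' => rfl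
      map_smul' := fun c f => rfl }
  map_one' := by
    ext f x
    change f.1 ((1 : G)⁻¹ * x) _ = f.1 x _
    rw [inv_one, one_mul]
  map_mul' g h := by
    ext f x
    change f.1 ((g * h)⁻¹ * x) _ = f.1 (h⁻¹ * (g⁻¹ * x)) _
    rw [mul_inv_rev, mul_assoc]

lemma indMod_noetherian (H : Subgroup G) [hH : H.FiniteIndex] {m : ℕ}
    (ρ : H →* Matrix.GeneralLinearGroup (Fin m) ℤ) : IsNoetherian ℤ (indMod H ρ) := by
  have hfin : Finite (G ⧸ H) := inferInstance
  let L : indMod H ρ →ₗ[ℤ] ((G ⧸ H) → (Fin m → ℤ)) :=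
    { toFun := fun f q => f.1 q.out
      map_add' := fun f f' => rfl
      map_smul' := fun c f => rfl }
  refine isNoetherian_of_injective L ?_
  intro f f' hff
  apply Subtype.ext
  funext x
  have h1 : (QuotientGroup.mk x : G ⧸ H).out⁻¹ * x ∈ H :=
    QuotientGroup.eq.mp (QuotientGroup.out_eq' _)
  have h2 : x = (QuotientGroup.mk x : G ⧸ H).out * (⟨_, h1⟩ : H) := by
    change x = (QuotientGroup.mk x : G ⧸ H).out * ((QuotientGroup.mk x : G ⧸ H).out⁻¹ * x)
    rw [mul_inv_cancel_left]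
  rw [h2, f.2, f'.2]
  congr 1
  exact congrFun hff _

lemma IntDet.of_finiteIndex (H : Subgroup G) [hH : H.FiniteIndex] {c : G} {k : ℕ}
    (hc : c ^ k ∈ H) (h : IntDet (⟨c ^ k, hc⟩ : H)) : IntDet c := by
  classical
  obtain ⟨m, ρ, hρ⟩ := h
  have := indMod_noetherian H ρ
  have htf : Module.IsTorsionFree ℤ (indMod H ρ) := inferInstance
  refine intDet_of_module (indRep H ρ) ?_
  intro N hN h1
  set z : H := ⟨c ^ k, hc⟩ with hz
  -- reduce to powers of `z`
  have h2 : indRep H ρ ((z ^ N : H) : G) = 1 := by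
    have h3 : ((z ^ N : H) : G) = (c ^ N) ^ k := by
      rw [Subgroup.coe_pow, hz]
      change (c ^ k) ^ N = _
      rw [← pow_mul, ← pow_mul, mul_comm]
    rw [h3, map_pow, h1, one_pow]
  -- a vector which is moved
  have h4 : ∃ v : Fin m → ℤ, (ρ (z ^ N)).val.mulVec v ≠ v := by
    by_contra hcon
    push Not at hcon
    apply hρ N hN
    rw [← map_pow]
    apply Units.ext
    apply Matrix.ext_of_mulVec_single
    intro i
    rw [hcon, Units.val_one, Matrix.one_mulVec]
  obtain ⟨v, hv⟩ := h4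
  let f : indMod H ρ := ⟨fun x => if hx : x ∈ H then (ρ (⟨x, hx⟩ : H)⁻¹).val.mulVec v else 0, by
    intro x h
    by_cases hx : x ∈ H
    · have hxh : x * h ∈ H := H.mul_mem hx h.2
      have e1 : (if hx : x * (h : G) ∈ H then (ρ (⟨x * h, hx⟩ : H)⁻¹).val.mulVec v else 0) =
          (ρ (⟨x * h, hxh⟩ : H)⁻¹).val.mulVec v := dif_pos hxh
      have e2 : (if hx : x ∈ H then (ρ (⟨x, hx⟩ : H)⁻¹).val.mulVec v else 0) =
          (ρ (⟨x, hx⟩ : H)⁻¹).val.mulVec v := dif_pos hx
      dsimp only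
      rw [e1, e2, Matrix.mulVec_mulVec, ← Units.val_mul, ← map_mul]
      congr 3
      apply Subtype.ext
      change (x * h)⁻¹ = (h : G)⁻¹ * x⁻¹
      rw [mul_inv_rev]
    · have hxh : x * h ∉ H := fun h5 => hx (by
        have := H.mul_mem h5 (H.inv_mem h.2)
        rwa [mul_inv_cancel_right] at this)
      have e1 : (if hx : x * (h : G) ∈ H then (ρ (⟨x * h, hx⟩ : H)⁻¹).val.mulVec v else 0) =
          0 := dif_neg hxh
      have e2 : (if hx : x ∈ H then (ρ (⟨x, hx⟩ : H)⁻¹).val.mulVec v else 0) = 0 := dif_neg hx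
      dsimp only
      rw [e1, e2, Matrix.mulVec_zero]⟩
  have h5 := congrFun (congrArg (fun L : indMod H ρ →ₗ[ℤ] indMod H ρ => (L f).1) h2) 1
  change f.1 (((z ^ N : H) : G)⁻¹ * 1) = f.1 1 at h5
  rw [mul_one] at h5
  have h6 : f.1 (((z ^ N : H) : G)⁻¹) = (ρ (z ^ N)).val.mulVec v := by
    have hmem : ((z ^ N : H) : G)⁻¹ ∈ H := H.inv_mem (z ^ N).2
    have e1 : f.1 (((z ^ N : H) : G)⁻¹) =
      (ρ (⟨((z ^ N : H) : G)⁻¹, hmem⟩ : H)⁻¹).val.mulVec v := dif_pos hmem
    rw [e1]
    congr 3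
    apply Subtype.ext
    change (((z ^ N : H) : G)⁻¹)⁻¹ = _
    rw [inv_inv]
  have h7 : f.1 1 = v := by
    have e1 : f.1 1 = (ρ (⟨1, H.one_mem⟩ : H)⁻¹).val.mulVec v := dif_pos H.one_mem
    rw [e1]
    have e2 : (⟨1, H.one_mem⟩ : H)⁻¹ = 1 := by
      apply Subtype.ext
      change (1 : G)⁻¹ = 1
      exact inv_one
    rw [e2, map_one, Units.val_one, Matrix.one_mulVec]
  rw [h6, h7] at h5
  exact hv h5

theorem IntDetected.of_finiteIndex (H : Subgroup G) [hH : H.FiniteIndex] (h : IntDetected H) :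
    IntDetected G := by
  refine ⟨fun q hq => ?_, fun c hc => ?_⟩
  · obtain ⟨K, hK, hKr⟩ := h.vrf q hq
    refine ⟨K.map H.subtype, ⟨?_⟩, ?_⟩
    · rw [Subgroup.index_map_subtype]
      exact mul_ne_zero hK.index_ne_zero hH.index_ne_zero
    · exact residuallyFiniteQ_of_injective hq hKr
        (K.equivMapOfInjective H.subtype H.subtype_injective).symm.toMonoidHom
        (K.equivMapOfInjective H.subtype H.subtype_injective).symm.injective
  · obtain ⟨k, hk, -, hck⟩ := Subgroup.exists_pow_mem_of_index_ne_zero hH.index_ne_zero c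
    refine IntDet.of_finiteIndex H hck (h.det _ ?_)
    intro N hN h1
    refine hc (k * N) (Nat.mul_pos hk hN) ?_
    rw [pow_mul]
    exact congrArg Subtype.val h1

end induced

section iface

variable {Γ : Type*} [Group Γ]

theorem IntDetected.intDet (h : IntDetected Γ)
    (htf : ∀ g : Γ, ∀ n : ℕ, 0 < n → g ^ n = 1 → g = 1) {c : Γ} (hc : c ≠ 1) : IntDet c :=
  h.det c fun N hN h1 => hc (htf c N hN h1)

theorem IntDetected.admissible.{v, u} {Γ : Type u} [Group Γ] (h : IntDetected Γ)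
    (htf : ∀ g : Γ, ∀ n : ℕ, 0 < n → g ^ n = 1 → g = 1) : Admissible.{v} Γ where
  torsionFree := htf
  locally_good := by
    intro H _
    right
    left
    have : {q : ℕ | q.Prime ∧ ¬ VirtuallyResiduallyFiniteQ q H} = ∅ := by
      rw [Set.eq_empty_iff_forall_notMem]
      rintro q ⟨hq, hn⟩
      exact hn ((h.of_injective H.subtype H.subtype_injective).vrf q hq)
    rw [this]
    exact Set.finite_empty

end iface

end Pool.Agent.Lib.MP_8f66f0_al_Aut
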