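import Mathlib
import Pool.Agent.Lib.MP_8f66f0_al_Aut.Poly

/-! Polynomial class functions on free groups. -/

set_option autoImplicit false
set_option linter.unusedSectionVars false

namespace Pool.Agent.Lib.MP_8f66f0_al_Aut

open Polynomial

section general

variable {F E : Type*} [Group F] [Ring E]

/-- Functions obtained from a homomorphism to units congruent to one modulo `X`. -/
lemma polyHom_mem (ρ : F →* E[X]ˣ) (hρ : ∀ g, (ρ g).val.coeff 0 = 1)
    (lam : E[X] →+ ℤ) (n : ℕ) (hlam : ∀ P, lam (X ^ n * P) = 0) (m : ℕ) :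
    m ≤ n → ∀ P : E[X], (fun x => lam ((ρ x).val * (X ^ (n - m) * P))) ∈ pol F (0 : ℤ) m := by
  induction m with
  | zero =>
    intro _ P
    rw [mem_pol_zero]
    funext x
    have h1 : (ρ x).val * (X ^ (n - 0) * P) = X ^ n * ((ρ x).val * P) := by
      rw [Nat.sub_zero, ← mul_assoc, ← mul_assoc, (commute_X_pow _ n).eq]
    rw [h1, hlam]
    rfl
  | succ m ih =>
    intro hm P
    rw [mem_pol_succ]
    refine ⟨by rw [zero_smul]; exact Submodule.zero_mem _, fun g => ?_⟩
    obtain ⟨Q, hQ⟩ : X ∣ ((ρ g).val - 1) := by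
      rw [X_dvd_iff, coeff_sub, hρ, coeff_one_zero, sub_self]
    have h1 : dif ℤ g (fun x => lam ((ρ x).val * (X ^ (n - (m + 1)) * P))) =
        fun x => lam ((ρ x).val * (X ^ (n - m) * (Q * P))) := by
      funext x
      rw [dif_apply, ← map_sub]
      congr 1
      have h2 : n - m = n - (m + 1) + 1 := by omega
      rw [map_mul, Units.val_mul, h2, pow_succ']
      have h3 : (ρ g).val = 1 + X * Q := by rw [← hQ]; abel
      rw [h3]
      have h4 : (X : E[X]) * Q * (X ^ (n - (m + 1)) * P) =
          X * X ^ (n - (m + 1)) * (Q * P) := by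
        rw [mul_assoc X Q, ← mul_assoc Q, ← (commute_X_pow Q _).eq]
        simp only [mul_assoc]
      rw [← h4]
      noncomm_ring
    rw [h1]
    exact ih (by omega) (Q * P)

variable {κ : Type*} {N : κ → E}

lemma xn_sq (h : ∀ k, N k * N k = 0) (k : κ) : (X * C (N k)) * (X * C (N k)) = 0 := by
  have h1 : (X * C (N k)) * (X * C (N k)) = X * X * (C (N k) * C (N k)) := by
    rw [mul_assoc, ← mul_assoc (C _) X, (commute_X (C (N k))).eq.symm]
    simp only [mul_assoc]
  rw [h1, ← C_mul, h, C_0, mul_zero]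

/-- The images of the generators. -/
noncomputable def genU (h : ∀ k, N k * N k = 0) (k : κ) : E[X]ˣ where
  val := 1 + X * C (N k)
  inv := 1 - X * C (N k)
  val_inv := by
    have h1 := xn_sq h k
    rw [add_mul, one_mul, mul_sub, mul_one, h1]
    abel
  inv_val := by
    have h1 := xn_sq h k
    rw [sub_mul, one_mul, mul_add, mul_one, h1]
    abel

/-- The representation. -/
noncomputable def rep (h : ∀ k, N k * N k = 0) : FreeGroup κ →* E[X]ˣ := FreeGroup.lift (genU h)

lemma rep_coeff_zero (h : ∀ k, N k * N k = 0) (g : FreeGroup κ) :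
    (rep h g).val.coeff 0 = 1 := by
  have h1 : (Units.map (constantCoeff : E[X] →+* E).toMonoidHom).comp (rep h) = 1 := by
    apply FreeGroup.ext_hom
    intro k
    apply Units.ext
    change (rep h (FreeGroup.of k)).val.coeff 0 = 1
    rw [rep, FreeGroup.lift_apply_of]
    change (1 + X * C (N k) : E[X]).coeff 0 = 1
    rw [coeff_add, coeff_one_zero, mul_coeff_zero, coeff_X_zero, zero_mul, add_zero]
  exact congrArg Units.val (DFunLike.congr_fun h1 g)

/-- The sign of a letter. -/
def sgn (l : κ × Bool) : ℤ := if l.2 then 1 else -1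

lemma rep_mk (h : ∀ k, N k * N k = 0) (L : List (κ × Bool)) :
    (rep h (FreeGroup.mk L)).val = (L.map fun l => 1 + X * C (sgn l • N l.1)).prod := by
  induction L with
  | nil =>
    rw [← FreeGroup.one_eq_mk, map_one]
    rfl
  | cons l L ih =>
    have h1 : FreeGroup.mk (l :: L) = FreeGroup.mk [l] * FreeGroup.mk L := by
      rw [FreeGroup.mul_mk]
      rfl
    rw [h1, map_mul, Units.val_mul, ih, List.map_cons, List.prod_cons]
    congr 1
    obtain ⟨k, b⟩ := l
    cases b
    · have h2 : (FreeGroup.mk [(k, false)] : FreeGroup κ) = (FreeGroup.of k)⁻¹ := by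
        rw [FreeGroup.of, FreeGroup.inv_mk]
        rfl
      rw [h2, map_inv, rep, FreeGroup.lift_apply_of]
      change (1 - X * C (N k) : E[X]) = 1 + X * C ((-1 : ℤ) • N k)
      rw [neg_smul, one_smul, C_neg, mul_neg, sub_eq_add_neg]
    · have h2 : (FreeGroup.mk [(k, true)] : FreeGroup κ) = FreeGroup.of k := rfl
      rw [h2, rep, FreeGroup.lift_apply_of]
      change (1 + X * C (N k) : E[X]) = 1 + X * C ((1 : ℤ) • N k)
      rw [one_smul]

lemma coeff_prod {B : Type*} (N : B → E) (L : List B) (m : ℕ)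
    (hm : L.length ≤ m) : ((L.map fun l => 1 + X * C (N l)).prod : E[X]).coeff m =
      if L.length = m then (L.map N).prod else 0 := by
  induction L generalizing m with
  | nil =>
    rw [List.map_nil, List.prod_nil, List.length_nil, List.map_nil, List.prod_nil, coeff_one]
    simp only [eq_comm]
  | cons l L ih =>
    rw [List.length_cons] at hm
    obtain ⟨m, rfl⟩ : ∃ m', m = m' + 1 := ⟨m - 1, by omega⟩
    rw [List.map_cons, List.prod_cons, add_mul, one_mul, coeff_add, ih (m + 1) (by omega),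
      if_neg (by omega), zero_add, mul_assoc, coeff_X_mul, coeff_C_mul, ih m (by omega),
      List.length_cons, List.map_cons, List.prod_cons]
    by_cases h : L.length = m
    · rw [if_pos h, if_pos (by omega)]
    · rw [if_neg h, if_neg (by omega), mul_zero]

lemma sgn_prod (N : κ → E) (L : List (κ × Bool)) :
    (L.map fun l => sgn l • N l.1).prod = (L.map sgn).prod • ((L.map Prod.fst).map N).prod := by
  induction L with
  | nil => simp
  | cons l L ih =>
    rw [List.map_cons, List.prod_cons, ih, List.map_cons, List.prod_cons, List.map_cons,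
      List.map_cons, List.prod_cons, smul_mul_smul_comm]

lemma sgn_prod_ne (L : List (κ × Bool)) : (L.map sgn).prod ≠ 0 := by
  intro h
  rw [List.prod_eq_zero_iff] at h
  rw [List.mem_map] at h
  obtain ⟨l, -, hl⟩ := h
  rw [sgn] at hl
  split at hl <;> omega

end general

section automaton

variable {A κ : Type*}

/-- `L` is read along the path starting at `a`. -/
def walk (nxt : A → A) (u : A → κ) : A → List κ → Prop
  | _, [] => True
  | a, k :: L => u a = k ∧ walk nxt u (nxt a) L

variable [Fintype A] [DecidableEq A] [DecidableEq κ]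

/-- The adjacency matrices. -/
def adj (nxt : A → A) (u : A → κ) (k : κ) : Matrix A A ℤ :=
  Matrix.of fun a b => if u a = k ∧ b = nxt a then 1 else 0

lemma adj_mul (nxt : A → A) (u : A → κ) (k : κ) (M : Matrix A A ℤ) (a b : A) :
    (adj nxt u k * M) a b = if u a = k then M (nxt a) b else 0 := by
  rw [Matrix.mul_apply, Finset.sum_eq_single (nxt a)]
  · by_cases h : u a = k
    · rw [adj, Matrix.of_apply, if_pos ⟨h, rfl⟩, if_pos h, one_mul]
    · rw [adj, Matrix.of_apply, if_neg (fun h1 => h h1.1), if_neg h, zero_mul]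
  · intro c _ hc
    rw [adj, Matrix.of_apply, if_neg (fun h1 => hc h1.2), zero_mul]
  · intro h
    exact absurd (Finset.mem_univ _) h

open Classical in
lemma adj_prod (nxt : A → A) (u : A → κ) (L : List κ) (a b : A) :
    (L.map (adj nxt u)).prod a b = if walk nxt u a L ∧ b = nxt^[L.length] a then 1 else 0 := by
  induction L generalizing a with
  | nil =>
    rw [List.map_nil, List.prod_nil, Matrix.one_apply]
    simp [walk, eq_comm]
  | cons k L ih =>
    rw [List.map_cons, List.prod_cons, adj_mul, ih]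
    rw [List.length_cons, Function.iterate_succ_apply, walk]
    by_cases h : u a = k
    · simp [h]
    · simp [h]

lemma adj_sq {nxt : A → A} {u : A → κ} (h : ∀ a, u a ≠ u (nxt a)) (k : κ) :
    adj nxt u k * adj nxt u k = 0 := by
  ext a b
  rw [adj_mul, Matrix.zero_apply]
  by_cases h1 : u a = k
  · rw [if_pos h1, adj, Matrix.of_apply, if_neg]
    rintro ⟨h2, -⟩
    exact h a (h1.trans h2.symm)
  · rw [if_neg h1]

/-- The polynomial class function. -/
noncomputable def cyc {nxt : A → A} {u : A → κ} (h : ∀ a, u a ≠ u (nxt a)) (n : ℕ)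
    (g : FreeGroup κ) : ℤ :=
  Matrix.trace ((rep (adj_sq h) g).val.coeff n)

lemma cyc_mem {nxt : A → A} {u : A → κ} (h : ∀ a, u a ≠ u (nxt a)) (n : ℕ) :
    cyc h n ∈ pol (FreeGroup κ) (0 : ℤ) (n + 1) := by
  have h1 := polyHom_mem (rep (adj_sq h)) (rep_coeff_zero (adj_sq h))
    ((Matrix.traceAddMonoidHom A ℤ).comp
      (Polynomial.lcoeff (Matrix A A ℤ) n).toAddMonoidHom) (n + 1) (by
        intro P
        change Matrix.trace ((X ^ (n + 1) * P).coeff n) = 0
        rw [coeff_X_pow_mul', if_neg (by omega), Matrix.trace_zero]) (n + 1) le_rfl 1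
  have h2 : (fun x => ((Matrix.traceAddMonoidHom A ℤ).comp
      (Polynomial.lcoeff (Matrix A A ℤ) n).toAddMonoidHom)
        ((rep (adj_sq h) x).val * (X ^ (n + 1 - (n + 1)) * 1))) = cyc h n := by
    funext x
    rw [Nat.sub_self, pow_zero, mul_one, mul_one]
    rfl
  rwa [h2] at h1

lemma trace_coeff_comm (n : ℕ) (P Q : (Matrix A A ℤ)[X]) :
    Matrix.trace ((P * Q).coeff n) = Matrix.trace ((Q * P).coeff n) := by
  rw [coeff_mul, coeff_mul, Matrix.trace_sum, Matrix.trace_sum,
    ← Finset.Nat.sum_antidiagonal_swap]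
  refine Finset.sum_congr rfl fun x _ => ?_
  exact Matrix.trace_mul_comm _ _

lemma cyc_mul_comm {nxt : A → A} {u : A → κ} (h : ∀ a, u a ≠ u (nxt a)) (n : ℕ)
    (x y : FreeGroup κ) : cyc h n (x * y) = cyc h n (y * x) := by
  rw [cyc, cyc, map_mul, map_mul, Units.val_mul, Units.val_mul]
  exact trace_coeff_comm n _ _

lemma cyc_conj {nxt : A → A} {u : A → κ} (h : ∀ a, u a ≠ u (nxt a)) (n : ℕ)
    {x y : FreeGroup κ} (hxy : IsConj x y) : cyc h n x = cyc h n y := by
  obtain ⟨c, rfl⟩ := isConj_iff.mp hxy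
  rw [cyc_mul_comm, ← mul_assoc, inv_mul_cancel, one_mul]

/-- The class function vanishes on shorter words. -/
lemma cyc_short {nxt : A → A} {u : A → κ} (h : ∀ a, u a ≠ u (nxt a)) {n : ℕ}
    {L : List (κ × Bool)} (hL : L.length < n) : cyc h n (FreeGroup.mk L) = 0 := by
  rw [cyc, rep_mk, coeff_prod _ _ _ hL.le, if_neg hL.ne, Matrix.trace_zero]

open Classical in
/-- The class function on words of the right length. -/
lemma cyc_eq {nxt : A → A} {u : A → κ} (h : ∀ a, u a ≠ u (nxt a)) {n : ℕ}
    (hn : ∀ a, nxt^[n] a = a) {L : List (κ × Bool)} (hL : L.length = n) :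
    cyc h n (FreeGroup.mk L) = (L.map sgn).prod *
      ((Finset.univ.filter fun a => walk nxt u a (L.map Prod.fst)).card : ℤ) := by
  rw [cyc, rep_mk, coeff_prod _ _ _ hL.le, if_pos hL, sgn_prod, Matrix.trace_smul, smul_eq_mul]
  congr 1
  rw [Matrix.trace, Finset.card_filter, Nat.cast_sum]
  refine Finset.sum_congr rfl fun a _ => ?_
  rw [Matrix.diag_apply, adj_prod, List.length_map, hL, hn]
  by_cases h1 : walk nxt u a (L.map Prod.fst)
  · rw [if_pos ⟨h1, rfl⟩, if_pos h1, Nat.cast_one]
  · rw [if_neg (fun h2 => h1 h2.1), if_neg h1, Nat.cast_zero]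

lemma cyc_ne_zero_iff {nxt : A → A} {u : A → κ} (h : ∀ a, u a ≠ u (nxt a)) {n : ℕ}
    (hn : ∀ a, nxt^[n] a = a) {L : List (κ × Bool)} (hL : L.length = n) :
    cyc h n (FreeGroup.mk L) ≠ 0 ↔ ∃ a, walk nxt u a (L.map Prod.fst) := by
  classical
  rw [cyc_eq h hn hL, mul_ne_zero_iff, and_iff_right (sgn_prod_ne L), Nat.cast_ne_zero,
    Finset.card_ne_zero]
  constructor
  · rintro ⟨a, ha⟩
    exact ⟨a, (Finset.mem_filter.mp ha).2⟩
  · rintro ⟨a, ha⟩
    exact ⟨a, Finset.mem_filter.mpr ⟨Finset.mem_univ _, ha⟩⟩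

end automaton

end Pool.Agent.Lib.MP_8f66f0_al_Aut
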