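import Mathlib
import Pool.Agent.Lib.MP_8f66f0_al_Aut.Cyc

/-! Polynomial class functions separate the conjugacy classes of a free group. -/

set_option autoImplicit false
set_option linter.unusedSectionVars false

namespace Pool.Agent.Lib.MP_8f66f0_al_Aut

section blocks

variable {ι : Type*} {m : ℕ}

/-- The successor on the positions of a cyclic word in blocks of three letters. -/
def nx (x : ZMod m × Fin 3) : ZMod m × Fin 3 := if x.2 = 2 then (x.1 + 1, 0) else (x.1, x.2 + 1)

/-- The labels of the positions. -/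
def lab (l : ZMod m → ι × Bool) (x : ZMod m × Fin 3) : ι × Fin 3 :=
  ((l x.1).1, if (l x.1).2 then x.2 else Fin.rev x.2)

lemma nx_zero (a : ZMod m) : nx (a, 0) = (a, 1) := rfl
lemma nx_one (a : ZMod m) : nx (a, 1) = (a, 2) := rfl
lemma nx_two (a : ZMod m) : nx (a, 2) = (a + 1, 0) := rfl

lemma nx_iterate_three (x : ZMod m × Fin 3) : nx^[3] x = (x.1 + 1, x.2) := by
  obtain ⟨a, b⟩ := x
  fin_cases b <;> rfl

lemma nx_iterate (n : ℕ) (x : ZMod m × Fin 3) : nx^[3 * n] x = (x.1 + n, x.2) := by
  induction n with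
  | zero => simp
  | succ n ih =>
    rw [Nat.mul_succ, Nat.add_comm, Function.iterate_add_apply, ih, nx_iterate_three]
    push_cast
    rw [add_assoc]

lemma nx_iterate_self (x : ZMod m × Fin 3) : nx^[3 * m] x = x := by
  rw [nx_iterate, ZMod.natCast_self, add_zero]

lemma fin_aux1 : ∀ c : Bool, (if c then (0 : Fin 3) else Fin.rev 0) ≠
    (if c then 1 else Fin.rev 1) := by decide

lemma fin_aux2 : ∀ c : Bool, (if c then (1 : Fin 3) else Fin.rev 1) ≠
    (if c then 2 else Fin.rev 2) := by decide

lemma fin_aux3 : ∀ c : Bool, (if c then (2 : Fin 3) else Fin.rev 2) ≠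
    (if c then 0 else Fin.rev 0) := by decide

lemma fin_aux4 : ∀ c : Bool, (if c then (2 : Fin 3) else Fin.rev 2) ≠ 1 := by decide

lemma fin_aux5 : ∀ c : Bool, (if c then (0 : Fin 3) else Fin.rev 0) ≠ 1 := by decide

lemma lab_ne {l : ZMod m → ι × Bool}
    (hl : ∀ a, (l a).1 = (l (a + 1)).1 → (l a).2 = (l (a + 1)).2) (x : ZMod m × Fin 3) :
    lab l x ≠ lab l (nx x) := by
  obtain ⟨a, b⟩ := x
  intro h
  have h1 := congrArg Prod.fst h
  have h2 := congrArg Prod.snd h
  fin_cases b
  · exact fin_aux1 _ h2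
  · exact fin_aux2 _ h2
  · change (l a).1 = (l (a + 1)).1 at h1
    change (if (l a).2 then (2 : Fin 3) else Fin.rev 2) =
      (if (l (a + 1)).2 then 0 else Fin.rev 0) at h2
    rw [hl a h1] at h2
    exact fin_aux3 _ h2

/-- The blocks. -/
def block (l : ι × Bool) : List ((ι × Fin 3) × Bool) :=
  if l.2 then [((l.1, 0), true), ((l.1, 1), true), ((l.1, 2), true)]
  else [((l.1, 2), false), ((l.1, 1), false), ((l.1, 0), false)]

/-- The embedding of free groups. -/
def emb (ι : Type*) : FreeGroup ι →* FreeGroup (ι × Fin 3) :=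
  FreeGroup.lift fun i => FreeGroup.of (i, 0) * FreeGroup.of (i, 1) * FreeGroup.of (i, 2)

lemma block_length (l : ι × Bool) : (block l).length = 3 := by
  rw [block]
  split <;> rfl

lemma flatMap_block_length (L : List (ι × Bool)) : (L.flatMap block).length = 3 * L.length := by
  induction L with
  | nil => rfl
  | cons l L ih =>
    rw [List.flatMap_cons, List.length_append, ih, block_length, List.length_cons]
    ring

lemma emb_mk (L : List (ι × Bool)) : emb ι (FreeGroup.mk L) = FreeGroup.mk (L.flatMap block) := by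
  induction L with
  | nil =>
    rw [← FreeGroup.one_eq_mk, map_one]
    rfl
  | cons l L ih =>
    have h1 : FreeGroup.mk (l :: L) = FreeGroup.mk [l] * FreeGroup.mk L := by
      rw [FreeGroup.mul_mk]
      rfl
    rw [h1, map_mul, ih, List.flatMap_cons, ← FreeGroup.mul_mk]
    congr 1
    obtain ⟨i, b⟩ := l
    cases b
    · have h2 : (FreeGroup.mk [(i, false)] : FreeGroup ι) = (FreeGroup.of i)⁻¹ := by
        rw [FreeGroup.of, FreeGroup.inv_mk]
        rfl
      rw [h2, map_inv, emb, FreeGroup.lift_apply_of, FreeGroup.of, FreeGroup.of, FreeGroup.of,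
        FreeGroup.mul_mk, FreeGroup.mul_mk, FreeGroup.inv_mk]
      rfl
    · have h2 : (FreeGroup.mk [(i, true)] : FreeGroup ι) = FreeGroup.of i := rfl
      rw [h2, emb, FreeGroup.lift_apply_of, FreeGroup.of, FreeGroup.of, FreeGroup.of,
        FreeGroup.mul_mk, FreeGroup.mul_mk]
      rfl

lemma walk_block (l : ZMod m → ι × Bool) (a : ZMod m) (k : ι × Bool) (R : List (ι × Fin 3)) :
    walk nx (lab l) (a, 0) ((block k).map Prod.fst ++ R) ↔
      l a = k ∧ walk nx (lab l) (a + 1, 0) R := by
  obtain ⟨i, b⟩ := k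
  cases hb : (l a).2 <;> cases b
  · change ((lab l (a, 0) = (i, 2)) ∧ (lab l (a, 1) = (i, 1)) ∧ (lab l (a, 2) = (i, 0)) ∧
      walk nx (lab l) (a + 1, 0) R) ↔ _
    have h0 : lab l (a, 0) = ((l a).1, 2) := by rw [lab]; dsimp only; rw [hb]; rfl
    have h1 : lab l (a, 1) = ((l a).1, 1) := by rw [lab]; dsimp only; rw [hb]; rfl
    have h2 : lab l (a, 2) = ((l a).1, 0) := by rw [lab]; dsimp only; rw [hb]; rfl
    rw [h0, h1, h2]
    constructor
    · rintro ⟨h3, -, -, h4⟩
      have h5 : (l a).1 = i := congrArg Prod.fst h3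
      exact ⟨Prod.ext h5 hb, h4⟩
    · rintro ⟨h3, h4⟩
      rw [h3]
      exact ⟨rfl, rfl, rfl, h4⟩
  · change ((lab l (a, 0) = (i, 0)) ∧ (lab l (a, 1) = (i, 1)) ∧ (lab l (a, 2) = (i, 2)) ∧
      walk nx (lab l) (a + 1, 0) R) ↔ _
    have h0 : lab l (a, 0) = ((l a).1, 2) := by rw [lab]; dsimp only; rw [hb]; rfl
    rw [h0]
    constructor
    · rintro ⟨h3, -⟩
      have h5 := congrArg Prod.snd h3
      dsimp only at h5
      exact absurd h5 (by decide)
    · rintro ⟨h3, h4⟩
      rw [h3] at hb
      dsimp only at hb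
      exact absurd hb (by decide)
  · change ((lab l (a, 0) = (i, 2)) ∧ (lab l (a, 1) = (i, 1)) ∧ (lab l (a, 2) = (i, 0)) ∧
      walk nx (lab l) (a + 1, 0) R) ↔ _
    have h0 : lab l (a, 0) = ((l a).1, 0) := by rw [lab]; dsimp only; rw [hb]; rfl
    rw [h0]
    constructor
    · rintro ⟨h3, -⟩
      have h5 := congrArg Prod.snd h3
      dsimp only at h5
      exact absurd h5 (by decide)
    · rintro ⟨h3, h4⟩
      rw [h3] at hb
      dsimp only at hb
      exact absurd hb (by decide)
  · change ((lab l (a, 0) = (i, 0)) ∧ (lab l (a, 1) = (i, 1)) ∧ (lab l (a, 2) = (i, 2)) ∧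
      walk nx (lab l) (a + 1, 0) R) ↔ _
    have h0 : lab l (a, 0) = ((l a).1, 0) := by rw [lab]; dsimp only; rw [hb]; rfl
    have h1 : lab l (a, 1) = ((l a).1, 1) := by rw [lab]; dsimp only; rw [hb]; rfl
    have h2 : lab l (a, 2) = ((l a).1, 2) := by rw [lab]; dsimp only; rw [hb]; rfl
    rw [h0, h1, h2]
    constructor
    · rintro ⟨h3, -, -, h4⟩
      have h5 : (l a).1 = i := congrArg Prod.fst h3
      exact ⟨Prod.ext h5 hb, h4⟩
    · rintro ⟨h3, h4⟩
      rw [h3]
      exact ⟨rfl, rfl, rfl, h4⟩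

lemma walk_flatMap (l : ZMod m → ι × Bool) (a : ZMod m) (L : List (ι × Bool)) :
    walk nx (lab l) (a, 0) ((L.flatMap block).map Prod.fst) ↔ walk (fun x => x + 1) l a L := by
  induction L generalizing a with
  | nil => exact Iff.rfl
  | cons k L ih =>
    rw [List.flatMap_cons, List.map_append, walk_block, ih]
    rfl

lemma walk_start {l : ZMod m → ι × Bool} {x : ZMod m × Fin 3} {k : ι × Bool}
    {R : List (ι × Fin 3)} (h : walk nx (lab l) x ((block k).map Prod.fst ++ R)) : x.2 = 0 := by
  obtain ⟨a, b⟩ := x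
  have h1 : (lab l (nx (a, b))).2 = 1 := by
    obtain ⟨i, c⟩ := k
    cases c
    · exact congrArg Prod.snd h.2.1
    · exact congrArg Prod.snd h.2.1
  fin_cases b
  · rfl
  · exact absurd h1 (fin_aux4 _)
  · exact absurd h1 (fin_aux5 _)

lemma walk_iff (l : ZMod m → ι × Bool) (a : ZMod m) (L : List (ι × Bool)) :
    walk (fun x => x + 1) l a L ↔ ∀ (i : ℕ) (h : i < L.length), l (a + i) = L[i] := by
  induction L generalizing a with
  | nil =>
    constructor
    · intro _ i h
      exact absurd h (Nat.not_lt_zero _)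
    · intro _
      trivial
  | cons k L ih =>
    change (l a = k ∧ walk _ l (a + 1) L) ↔ _
    rw [ih]
    constructor
    · rintro ⟨h1, h2⟩ i hi
      cases i with
      | zero => rw [Nat.cast_zero, add_zero]; exact h1
      | succ i =>
        have := h2 i (by rw [List.length_cons] at hi; omega)
        rw [List.getElem_cons_succ, ← this]
        congr 1
        push_cast
        ring
    · intro h
      refine ⟨?_, fun i hi => ?_⟩
      · have := h 0 (by rw [List.length_cons]; omega)
        rwa [Nat.cast_zero, add_zero] at this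
      · have := h (i + 1) (by rw [List.length_cons]; omega)
        rw [List.getElem_cons_succ] at this
        rw [← this]
        congr 1
        push_cast
        ring

end blocks

section words

variable {ι : Type*}

/-- A nonempty list as a cyclic word. -/
def cword (L : List (ι × Bool)) [NeZero L.length] (a : ZMod L.length) : ι × Bool :=
  L[a.val]'(ZMod.val_lt a)

lemma cword_natCast (L : List (ι × Bool)) [NeZero L.length] (j : ℕ) :
    cword L (j : ZMod L.length) = L[j % L.length]'(Nat.mod_lt _ (NeZero.pos _)) := by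
  rw [cword]
  congr 1
  exact ZMod.val_natCast _ _

lemma cword_reduced {L : List (ι × Bool)} [NeZero L.length]
    (hL : FreeGroup.IsCyclicallyReduced L) (a : ZMod L.length) :
    (cword L a).1 = (cword L (a + 1)).1 → (cword L a).2 = (cword L (a + 1)).2 := by
  obtain ⟨j, hj, rfl⟩ : ∃ j : ℕ, j < L.length ∧ a = (j : ZMod L.length) :=
    ⟨a.val, ZMod.val_lt a, (ZMod.natCast_zmod_val a).symm⟩
  have h1 : ((j : ZMod L.length) + 1) = ((j + 1 : ℕ) : ZMod L.length) := by push_cast; rfl
  rw [h1, cword_natCast, cword_natCast]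
  simp only [Nat.mod_eq_of_lt hj]
  rcases Nat.lt_or_ge (j + 1) L.length with h2 | h2
  · simp only [Nat.mod_eq_of_lt h2]
    have h3 := hL.1
    rw [FreeGroup.IsReduced, List.isChain_iff_getElem] at h3
    exact h3 j h2
  · have h3 : j + 1 = L.length := by omega
    simp only [h3, Nat.mod_self]
    have h4 := hL.2 (L[j]) (by
      rw [List.getLast?_eq_getElem?, Option.mem_def]
      have : L.length - 1 = j := by omega
      rw [this, List.getElem?_eq_getElem hj]) (L[0]'(by omega)) (by
      rw [List.head?_eq_getElem?, Option.mem_def, List.getElem?_eq_getElem (by omega)])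
    exact h4

lemma cword_walk (L : List (ι × Bool)) [NeZero L.length] :
    walk (fun x => x + 1) (cword L) 0 L := by
  rw [walk_iff]
  intro i hi
  rw [zero_add, cword_natCast]
  simp only [Nat.mod_eq_of_lt hi]

lemma rotate_of_walk {L L' : List (ι × Bool)} [NeZero L.length] (hlen : L'.length = L.length)
    {a : ZMod L.length} (h : walk (fun x => x + 1) (cword L) a L') : L' = L.rotate a.val := by
  rw [walk_iff] at h
  apply List.ext_getElem
  · rw [List.length_rotate, hlen]
  · intro i h1 h2
    rw [← h i h1, List.getElem_rotate]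
    have h3 : a + (i : ZMod L.length) = ((a.val + i : ℕ) : ZMod L.length) := by
      push_cast
      rw [ZMod.natCast_zmod_val]
    rw [h3, cword_natCast]
    congr 2
    rw [add_comm]

lemma isConj_rotate (L : List (ι × Bool)) (c : ℕ) :
    IsConj (FreeGroup.mk L) (FreeGroup.mk (L.rotate c)) := by
  rw [← List.rotate_mod]
  rcases Nat.eq_zero_or_pos L.length with h0 | h0
  · rw [List.length_eq_zero_iff] at h0
    subst h0
    rw [List.rotate_nil]
  · have h1 : c % L.length ≤ L.length := (Nat.mod_lt _ h0).le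
    rw [List.rotate_eq_drop_append_take h1]
    set d := c % L.length
    have h2 : FreeGroup.mk L = FreeGroup.mk (L.take d) * FreeGroup.mk (L.drop d) := by
      rw [FreeGroup.mul_mk, List.take_append_drop]
    rw [h2, ← FreeGroup.mul_mk, isConj_iff]
    refine ⟨(FreeGroup.mk (L.take d))⁻¹, ?_⟩
    group

/-- Polynomial class functions separate conjugacy classes (one direction, for a pair of cyclically
reduced words). -/
lemma exists_cyc {L : List (ι × Bool)} (hL : FreeGroup.IsCyclicallyReduced L) (h0 : L ≠ []) :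
    ∃ (n : ℕ) (f : FreeGroup ι → ℤ), f ∈ pol (FreeGroup ι) (0 : ℤ) n ∧
      (∀ x y, IsConj x y → f x = f y) ∧ f (FreeGroup.mk L) ≠ 0 ∧
      (∀ L' : List (ι × Bool), L'.length < L.length → f (FreeGroup.mk L') = 0) ∧
      (∀ L' : List (ι × Bool), L'.length = L.length → f (FreeGroup.mk L') ≠ 0 →
        ∃ c, L' = L.rotate c) := by
  classical
  have hne : NeZero L.length := ⟨fun h => h0 (List.length_eq_zero_iff.mp h)⟩
  have hlab := lab_ne (cword_reduced hL)
  have hself : ∀ a : ZMod L.length × Fin 3, nx^[3 * L.length] a = a := nx_iterate_self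
  refine ⟨3 * L.length + 1, cyc hlab (3 * L.length) ∘ emb ι, pol_comp _ (cyc_mem _ _), ?_, ?_, ?_,
    ?_⟩
  · intro x y hxy
    exact cyc_conj hlab _ ((emb ι).map_isConj hxy)
  · rw [Function.comp_apply, emb_mk, cyc_ne_zero_iff hlab hself (flatMap_block_length L)]
    exact ⟨(0, 0), (walk_flatMap _ _ _).mpr (cword_walk L)⟩
  · intro L' hL'
    rw [Function.comp_apply, emb_mk]
    apply cyc_short
    rw [flatMap_block_length]
    omega
  · intro L' hL' hne'
    rw [Function.comp_apply, emb_mk, cyc_ne_zero_iff hlab hself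
      (by rw [flatMap_block_length, hL'])] at hne'
    obtain ⟨⟨a, b⟩, hab⟩ := hne'
    have hb : b = 0 := by
      cases L' with
      | nil => exact absurd hL'.symm (NeZero.ne _)
      | cons k L' =>
        rw [List.flatMap_cons, List.map_append] at hab
        exact walk_start hab
    subst hb
    rw [walk_flatMap] at hab
    exact ⟨_, rotate_of_walk hL' hab⟩

/-- Every element is conjugate to a cyclically reduced word. -/
lemma exists_cyclicallyReduced (g : FreeGroup ι) :
    ∃ L : List (ι × Bool), FreeGroup.IsCyclicallyReduced L ∧ IsConj g (FreeGroup.mk L) := by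
  classical
  refine ⟨FreeGroup.reduceCyclically g.toWord,
    FreeGroup.reduceCyclically.isCyclicallyReduced FreeGroup.isReduced_toWord, ?_⟩
  have h1 := FreeGroup.reduceCyclically.conj_conjugator_reduceCyclically g.toWord
  have h2 : g = FreeGroup.mk (FreeGroup.reduceCyclically.conjugator g.toWord) *
      FreeGroup.mk (FreeGroup.reduceCyclically g.toWord) *
      (FreeGroup.mk (FreeGroup.reduceCyclically.conjugator g.toWord))⁻¹ := by
    rw [FreeGroup.inv_mk, FreeGroup.mul_mk, FreeGroup.mul_mk, h1, FreeGroup.mk_toWord]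
  rw [isConj_comm, isConj_iff]
  exact ⟨_, h2.symm⟩

/-- Polynomial class functions separate the conjugacy classes of a free group. -/
theorem classFn_sep {g h : FreeGroup ι} (hgh : ¬ IsConj g h) :
    ∃ (n : ℕ) (f : FreeGroup ι → ℤ), f ∈ pol (FreeGroup ι) (0 : ℤ) n ∧
      (∀ x y, IsConj x y → f x = f y) ∧ f g ≠ f h := by
  obtain ⟨Lg, hLg, hg⟩ := exists_cyclicallyReduced g
  obtain ⟨Lh, hLh, hh⟩ := exists_cyclicallyReduced h
  wlog hle : Lh.length ≤ Lg.length generalizing g h Lg Lh with H
  · obtain ⟨n, f, h1, h2, h3⟩ := H (g := h) (h := g) (fun h1 => hgh h1.symm) Lh hLh hh Lg hLg hg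
      (by omega)
    exact ⟨n, f, h1, h2, h3.symm⟩
  have hconj : ¬ IsConj (FreeGroup.mk Lg) (FreeGroup.mk Lh) := fun h1 =>
    hgh (hg.trans (h1.trans hh.symm))
  have h0 : Lg ≠ [] := by
    rintro rfl
    rw [List.length_nil, Nat.le_zero, List.length_eq_zero_iff] at hle
    subst hle
    exact hconj (IsConj.refl _)
  obtain ⟨n, f, h1, h2, h3, h4, h5⟩ := exists_cyc hLg h0
  refine ⟨n, f, h1, h2, ?_⟩
  rw [h2 _ _ hg, h2 _ _ hh]
  intro h6
  rcases Nat.lt_or_ge Lh.length Lg.length with hlt | hge
  · exact h3 (h6.trans (h4 Lh hlt))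
  · obtain ⟨c, hc⟩ := h5 Lh (by omega) (h6 ▸ h3)
    rw [hc] at hconj
    exact hconj (isConj_rotate Lg c)

/-- Conjugate cyclically reduced words have the same length. -/
lemma length_eq_of_isConj {L L' : List (ι × Bool)} (hL : FreeGroup.IsCyclicallyReduced L)
    (h : IsConj (FreeGroup.mk L) (FreeGroup.mk L')) : L.length ≤ L'.length := by
  by_contra hcon
  have h0 : L ≠ [] := by
    rintro rfl
    exact hcon (Nat.zero_le _)
  obtain ⟨n, f, h1, h2, h3, h4, h5⟩ := exists_cyc hL h0
  exact h3 ((h2 _ _ h).trans (h4 L' (by omega)))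

end words

end Pool.Agent.Lib.MP_8f66f0_al_Aut
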