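import Mathlib
import Pool.Agent.Lib.MP_8f66f0_al_Aut.Conj

/-! Pointwise inner endomorphisms of free groups are inner. -/

set_option autoImplicit false
set_option linter.unusedSectionVars false

namespace Pool.Agent.Lib.MP_8f66f0_al_Aut

open FreeGroup (mk of invRev IsReduced IsCyclicallyReduced)

variable {ι : Type*}

lemma pair_cyc {x y : ι} {L : List (ι × Bool)} (hL : IsReduced L) (h0 : L ≠ [])
    (hx : ∀ a ∈ L.head?, a.1 ≠ x) (hy : ∀ a ∈ L.getLast?, a.1 ≠ y) :
    IsCyclicallyReduced ((x, true) :: (L ++ ((y, true) :: invRev L))) := by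
  classical
  have hinv : IsReduced (invRev L) := by
    have h1 : L = (mk L).toWord := by rw [FreeGroup.toWord_mk, hL.reduce_eq]
    rw [h1, ← FreeGroup.toWord_inv]
    exact FreeGroup.isReduced_toWord
  have hhead : (invRev L).head? = L.getLast?.map fun g => (g.1, !g.2) := by
    rw [invRev, List.head?_reverse, List.getLast?_map]
  have hlast : (invRev L).getLast? = L.head?.map fun g => (g.1, !g.2) := by
    rw [invRev, List.getLast?_reverse, List.head?_map]
  obtain ⟨f, hf⟩ : ∃ f, L.head? = some f := by
    cases L with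
    | nil => exact absurd rfl h0
    | cons a L => exact ⟨a, rfl⟩
  have hfx : f.1 ≠ x := hx f hf
  refine ⟨?_, ?_⟩
  · rw [FreeGroup.IsReduced, List.isChain_cons]
    refine ⟨?_, ?_⟩
    · intro a ha
      rw [List.head?_append, hf] at ha
      have : f = a := by simpa using ha
      subst this
      exact fun h => absurd h.symm hfx
    · rw [List.isChain_append]
      refine ⟨hL, ?_, ?_⟩
      · rw [List.isChain_cons]
        refine ⟨?_, hinv⟩
        intro a ha
        rw [hhead] at ha
        obtain ⟨b, hb, rfl⟩ := Option.mem_map.mp ha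
        exact fun h => absurd h.symm (hy b hb)
      · intro a ha b hb
        have : (y, true) = b := by simpa using hb
        subst this
        exact fun h => absurd h (hy a ha)
  · intro a ha b hb
    have hb' : (x, true) = b := by simpa using hb
    subst hb'
    have ha' : a = (f.1, !f.2) := by
      rw [List.getLast?_cons, List.getLast?_append, List.getLast?_cons, hlast, hf] at ha
      simpa [eq_comm] using ha
    subst ha'
    exact fun h => absurd h hfx

lemma mk_singleton_zpow (i : ι) (b : Bool) : ∃ e : ℤ, (mk [(i, b)] : FreeGroup ι) = of i ^ e := by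
  cases b
  · refine ⟨-1, ?_⟩
    rw [zpow_neg_one, of, FreeGroup.inv_mk]
    rfl
  · exact ⟨1, by rw [zpow_one]; rfl⟩

/-- The pair lemma. -/
theorem pair_lemma {x y : ι} (n : ℕ) : ∀ L : List (ι × Bool), L.length ≤ n → IsReduced L →
    IsConj (of x * mk L * of y * (mk L)⁻¹) (of x * of y) →
      ∃ k l : ℤ, mk L = of x ^ k * of y ^ l := by
  have hnil : ∃ k l : ℤ, (mk ([] : List (ι × Bool))) = of x ^ k * of y ^ l :=
    ⟨0, 0, by rw [zpow_zero, zpow_zero, mul_one, FreeGroup.one_eq_mk]⟩
  induction n with
  | zero =>
    intro L hL _ _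
    have : L = [] := by
      rw [Nat.le_zero, List.length_eq_zero_iff] at hL
      exact hL
    subst this
    exact hnil
  | succ n ih =>
    intro L hL hred hconj
    rcases eq_or_ne L [] with rfl | h0
    · exact hnil
    by_cases hx : ∀ a ∈ L.head?, a.1 ≠ x
    · by_cases hy : ∀ a ∈ L.getLast?, a.1 ≠ y
      · exfalso
        have hcyc := pair_cyc hred h0 hx hy
        have h1 : of x * mk L * of y * (mk L)⁻¹ =
            mk ((x, true) :: (L ++ ((y, true) :: invRev L))) := by
          rw [of, of, FreeGroup.inv_mk, FreeGroup.mul_mk, FreeGroup.mul_mk, FreeGroup.mul_mk]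
          congr 1
          simp
        have h2 : of x * of y = mk [(x, true), (y, true)] := by
          rw [of, of, FreeGroup.mul_mk]
          rfl
        rw [h1, h2] at hconj
        have h3 := length_eq_of_isConj hcyc hconj
        simp only [List.length_cons, List.length_append, FreeGroup.invRev_length,
          List.length_nil] at h3
        have h4 : 0 < L.length := List.length_pos_iff.mpr h0
        omega
      · push Not at hy
        obtain ⟨a, ha, hay⟩ := hy
        rcases List.eq_nil_or_concat L with h1 | ⟨L', b, h1⟩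
        · exact absurd h1 h0
        rw [List.concat_eq_append] at h1
        have hab : a = b := by
          rw [h1] at ha
          simpa [eq_comm] using ha
        subst hab
        obtain ⟨i, c⟩ := a
        dsimp only at hay
        subst hay
        obtain ⟨e, he⟩ := mk_singleton_zpow i c
        have h2 : mk L = mk L' * of i ^ e := by
          rw [h1, ← FreeGroup.mul_mk, he]
        have h3 : of x * mk L * of i * (mk L)⁻¹ = of x * mk L' * of i * (mk L')⁻¹ := by
          rw [h2, mul_inv_rev]
          group
        rw [h3] at hconj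
        have h4 : IsReduced L' := by
          rw [h1] at hred
          exact List.IsChain.left_of_append hred
        obtain ⟨k, l, hkl⟩ := ih L' (by
          rw [h1, List.length_append] at hL
          simp only [List.length_cons, List.length_nil] at hL
          omega) h4 hconj
        refine ⟨k, l + e, ?_⟩
        rw [h2, hkl, zpow_add, mul_assoc]
    · push Not at hx
      obtain ⟨a, ha, hax⟩ := hx
      obtain ⟨L', h1⟩ : ∃ L', L = a :: L' := by
        cases L with
        | nil => exact absurd rfl h0
        | cons b L' =>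
          have : b = a := by simpa using ha
          exact ⟨L', by rw [this]⟩
      obtain ⟨i, c⟩ := a
      dsimp only at hax
      subst hax
      obtain ⟨e, he⟩ := mk_singleton_zpow i c
      have h2 : mk L = of i ^ e * mk L' := by
        rw [h1, ← he, FreeGroup.mul_mk]
        rfl
      have h3 : of i * mk L * of y * (mk L)⁻¹ =
          of i ^ e * (of i * mk L' * of y * (mk L')⁻¹) * (of i ^ e)⁻¹ := by
        rw [h2, mul_inv_rev]
        group
      rw [h3] at hconj
      have h4 : IsConj (of i * mk L' * of y * (mk L')⁻¹) (of i * of y) :=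
        (isConj_iff.mpr ⟨of i ^ e, rfl⟩).trans hconj
      have h5 : IsReduced L' := by
        rw [h1] at hred
        exact List.IsChain.tail hred
      obtain ⟨k, l, hkl⟩ := ih L' (by
        rw [h1, List.length_cons] at hL
        omega) h5 h4
      refine ⟨e + k, l, ?_⟩
      rw [h2, hkl, zpow_add, mul_assoc]

theorem pair_lemma' {x y : ι} {w : FreeGroup ι}
    (h : IsConj (of x * w * of y * w⁻¹) (of x * of y)) : ∃ k l : ℤ, w = of x ^ k * of y ^ l := by
  classical
  have h1 := pair_lemma (x := x) (y := y) w.toWord.length w.toWord le_rfl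
    FreeGroup.isReduced_toWord
  rw [FreeGroup.mk_toWord] at h1
  exact h1 h

/-- The exponent sum of a generator. -/
noncomputable def expSum [DecidableEq ι] (i : ι) : FreeGroup ι →* Multiplicative ℤ :=
  FreeGroup.lift fun j => Multiplicative.ofAdd (if j = i then 1 else 0)

lemma expSum_of_self [DecidableEq ι] (i : ι) : expSum i (of i) = Multiplicative.ofAdd 1 := by
  rw [expSum, FreeGroup.lift_apply_of, if_pos rfl]

lemma expSum_of_ne [DecidableEq ι] {i j : ι} (h : j ≠ i) : expSum i (of j) = 1 := by
  rw [expSum, FreeGroup.lift_apply_of, if_neg h]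
  rfl

/-- Endomorphisms of free groups which preserve all conjugacy classes are inner. -/
theorem pointwise_inner (ψ : FreeGroup ι →* FreeGroup ι) (h : ∀ g, IsConj (ψ g) g) :
    ∃ c : FreeGroup ι, ∀ g, ψ g = c * g * c⁻¹ := by
  classical
  rcases isEmpty_or_nonempty ι with hι | ⟨⟨a⟩⟩
  · exact ⟨1, fun g => Subsingleton.elim _ _⟩
  -- normalise
  obtain ⟨w, hw⟩ := isConj_iff.mp (h (of a)).symm
  set ψ' : FreeGroup ι →* FreeGroup ι := (MulAut.conj w⁻¹).toMonoidHom.comp ψ with hψ'
  have hψ'a : ∀ g, ψ' g = w⁻¹ * ψ g * w := by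
    intro g
    rw [hψ', MonoidHom.comp_apply]
    change MulAut.conj w⁻¹ (ψ g) = _
    rw [MulAut.conj_apply, inv_inv]
  have h' : ∀ g, IsConj (ψ' g) g := by
    intro g
    refine IsConj.trans ?_ (h g)
    rw [hψ'a, isConj_comm, isConj_iff]
    exact ⟨w⁻¹, by rw [inv_inv]⟩
  have ha : ψ' (of a) = of a := by
    rw [hψ'a, ← hw]
    group
  -- each generator
  have hgen : ∀ j, j ≠ a → ∃ k : ℤ, ψ' (of j) = of a ^ k * of j * (of a ^ k)⁻¹ := by
    intro j hj
    obtain ⟨v, hv⟩ := isConj_iff.mp (h' (of j)).symm
    have h1 : IsConj (of a * v * of j * v⁻¹) (of a * of j) := by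
      have h2 := h' (of a * of j)
      rw [map_mul, ha, ← hv] at h2
      have h3 : of a * (v * of j * v⁻¹) = of a * v * of j * v⁻¹ := by group
      rwa [h3] at h2
    obtain ⟨k, l, hkl⟩ := pair_lemma' h1
    refine ⟨k, ?_⟩
    rw [← hv, hkl, mul_inv_rev]
    group
  choose! k hk using hgen
  -- the exponents agree
  have hkk : ∀ i j, i ≠ a → j ≠ a → k i = k j := by
    intro i j hi hj
    have h1 : IsConj (of i * (of a ^ (k j - k i)) * of j * (of a ^ (k j - k i))⁻¹)
        (of i * of j) := by
      refine IsConj.trans ?_ (h' (of i * of j))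
      rw [map_mul, hk i hi, hk j hj, isConj_iff]
      refine ⟨of a ^ k i, ?_⟩
      group
    obtain ⟨p, q, hpq⟩ := pair_lemma' h1
    have h2 := congrArg (expSum a) hpq
    rw [map_mul, map_zpow, map_zpow, map_zpow, expSum_of_self, expSum_of_ne hi,
      expSum_of_ne hj, one_zpow, one_zpow, mul_one] at h2
    have h3 := congrArg Multiplicative.toAdd h2
    rw [toAdd_zpow, toAdd_ofAdd, toAdd_one, smul_eq_mul, mul_one, sub_eq_zero] at h3
    exact h3.symm
  -- the conjugating element
  obtain ⟨K, hK⟩ : ∃ K : ℤ, ∀ i, i ≠ a → k i = K := by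
    by_cases hex : ∃ i, i ≠ a
    · obtain ⟨i, hi⟩ := hex
      exact ⟨k i, fun j hj => hkk j i hj hi⟩
    · push Not at hex
      exact ⟨0, fun i hi => absurd (hex i) hi⟩
  have h2 : ψ' = (MulAut.conj (of a ^ K)).toMonoidHom := by
    apply FreeGroup.ext_hom
    intro j
    change ψ' (of j) = MulAut.conj (of a ^ K) (of j)
    rw [MulAut.conj_apply]
    by_cases hj : j = a
    · subst hj
      rw [ha]
      group
    · rw [hk j hj, hK j hj]
  refine ⟨w * of a ^ K, fun g => ?_⟩
  have h3 : w⁻¹ * ψ g * w = of a ^ K * g * (of a ^ K)⁻¹ := by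
    rw [← hψ'a, h2]
    exact MulAut.conj_apply _ _
  calc ψ g = w * (w⁻¹ * ψ g * w) * w⁻¹ := by group
    _ = _ := by rw [h3]; group

end Pool.Agent.Lib.MP_8f66f0_al_Aut
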