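import Mathlib
import Pool.Agent.Lib.MP_8f66f0_al_Aut.Inner
import Pool.Agent.Lib.MP_8f66f0_al_Aut.Sep

/-! Outer automorphism groups of free groups. -/

set_option autoImplicit false
set_option linter.unusedSectionVars false

namespace Pool.Agent.Lib.MP_8f66f0_al_Aut

section out

variable (F : Type*) [Group F]

instance conj_range_normal : (MulAut.conj (G := F)).range.Normal := by
  refine ⟨?_⟩
  rintro _ ⟨g, rfl⟩ φ
  refine ⟨φ g, ?_⟩
  ext x
  simp [MulAut.conj_apply]

/-- The outer automorphism group. -/
abbrev OutAut : Type _ := MulAut F ⧸ (MulAut.conj (G := F)).range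

/-- Automorphisms act on the conjugacy classes. -/
def permClasses : MulAut F →* Equiv.Perm (ConjClasses F) where
  toFun φ :=
    { toFun := ConjClasses.map φ.toMonoidHom
      invFun := ConjClasses.map φ⁻¹.toMonoidHom
      left_inv := by
        intro x
        obtain ⟨y, rfl⟩ := ConjClasses.mk_surjective x
        change ConjClasses.mk (φ⁻¹ (φ y)) = ConjClasses.mk y
        rw [MulAut.inv_apply_self]
      right_inv := by
        intro x
        obtain ⟨y, rfl⟩ := ConjClasses.mk_surjective x
        change ConjClasses.mk (φ (φ⁻¹ y)) = ConjClasses.mk y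
        rw [MulAut.apply_inv_self] }
  map_one' := by
    ext x
    obtain ⟨y, rfl⟩ := ConjClasses.mk_surjective x
    rfl
  map_mul' φ ψ := by
    ext x
    obtain ⟨y, rfl⟩ := ConjClasses.mk_surjective x
    rfl

lemma permClasses_conj (φ : MulAut F) (h : φ ∈ (MulAut.conj (G := F)).range) :
    permClasses F φ = 1 := by
  obtain ⟨g, rfl⟩ := h
  ext x
  obtain ⟨y, rfl⟩ := ConjClasses.mk_surjective x
  change ConjClasses.mk (g * y * g⁻¹) = ConjClasses.mk y
  rw [ConjClasses.mk_eq_mk_iff_isConj, isConj_comm, isConj_iff]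
  exact ⟨g, rfl⟩

/-- Outer automorphisms act on the conjugacy classes. -/
instance outAction : MulAction (OutAut F) (ConjClasses F) :=
  MulAction.compHom _ (QuotientGroup.lift _ (permClasses F) (permClasses_conj F))

variable {F}

lemma out_smul_mk (φ : MulAut F) (y : F) :
    (QuotientGroup.mk φ : OutAut F) • ConjClasses.mk y = ConjClasses.mk (φ y) := rfl

/-- Polynomial class functions separate the conjugacy classes. -/
def ClassSep (F : Type*) [Group F] : Prop :=
  ∀ g h : F, ¬ IsConj g h → ∃ (n : ℕ) (f : F → ℤ), f ∈ pol F (0 : ℤ) n ∧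
    (∀ x y, IsConj x y → f x = f y) ∧ f g ≠ f h

/-- Automorphisms preserving all conjugacy classes are inner. -/
def PropertyA (F : Type*) [Group F] : Prop :=
  ∀ φ : MulAut F, (∀ g, IsConj (φ g) g) → φ ∈ (MulAut.conj (G := F)).range

theorem affineAction_out (h1 : ClassSep F) (h2 : PropertyA F) :
    AffineAction (OutAut F) (ConjClasses.mk : F → ConjClasses F) where
  surj := ConjClasses.mk_surjective
  lift := fun g => by
    obtain ⟨φ, rfl⟩ := QuotientGroup.mk_surjective g
    exact ⟨φ.toMonoidHom, 1, fun y => by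
      rw [one_mul, out_smul_mk]
      rfl⟩
  abel := fun x y h => by
    rw [ConjClasses.mk_eq_mk_iff_isConj] at h
    have := Abelianization.of.map_isConj h
    rwa [isConj_iff_eq] at this
  sep := fun g hg => by
    obtain ⟨φ, rfl⟩ := QuotientGroup.mk_surjective g
    have h3 : ¬ ∀ x, IsConj (φ x) x := fun h => hg ((QuotientGroup.eq_one_iff _).mpr (h2 φ h))
    push Not at h3
    obtain ⟨x, hx⟩ := h3
    obtain ⟨n, f, hf, hcl, hne⟩ := h1 _ _ hx
    refine ⟨n, Quotient.lift f (fun a b hab => hcl a b hab), hf, ConjClasses.mk x, ?_⟩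
    exact hne

theorem ClassSep.polySep (h : ClassSep F) : PolySep F := by
  intro x y hxy
  have h1 : ¬ IsConj (x * y⁻¹) 1 := by
    rw [isConj_one_left]
    exact fun h2 => hxy (mul_inv_eq_one.mp h2)
  obtain ⟨n, f, hf, -, hne⟩ := h _ _ h1
  refine ⟨n, fun z => f (z * y⁻¹), ?_, ?_⟩
  · have h2 : (fun z => f (z * y⁻¹)) = dif ℤ y⁻¹ f + f := by
      funext z
      rw [Pi.add_apply, dif_apply, sub_add_cancel]
    rw [h2]
    cases n with
    | zero =>
      rw [mem_pol_zero] at hf
      subst hf
      rw [map_zero, add_zero]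
      exact Submodule.zero_mem _
    | succ n =>
      exact Submodule.add_mem _ (pol_le_succ _ _ ((mem_pol_succ.mp hf).2 _)) hf
  · rwa [← mul_inv_cancel y] at hne

theorem IntDetected.outAut [Group.FG F] (h1 : ClassSep F) (h2 : PropertyA F) :
    IntDetected (OutAut F) :=
  IntDetected.of_affine (affineAction_out h1 h2)

end out

section free

variable (ι : Type*)

theorem classSep_freeGroup : ClassSep (FreeGroup ι) := fun _ _ h => classFn_sep h

theorem polySep_freeGroup : PolySep (FreeGroup ι) := (classSep_freeGroup ι).polySep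

theorem propertyA_freeGroup : PropertyA (FreeGroup ι) := by
  intro φ h
  obtain ⟨c, hc⟩ := pointwise_inner φ.toMonoidHom h
  refine ⟨c, ?_⟩
  ext g
  rw [MulAut.conj_apply]
  exact (hc g).symm

/-- Automorphism groups of free groups of finite rank. -/
theorem intDetected_autFree [Finite ι] : IntDetected (MulAut (FreeGroup ι)) :=
  IntDetected.mulAut (polySep_freeGroup ι)

/-- Holomorphs of free groups of finite rank. -/
theorem intDetected_holFree [Finite ι] :
    IntDetected (FreeGroup ι ⋊[MonoidHom.id (MulAut (FreeGroup ι))] MulAut (FreeGroup ι)) :=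
  IntDetected.hol (polySep_freeGroup ι)

/-- Outer automorphism groups of free groups of finite rank. -/
theorem intDetected_outFree [Finite ι] : IntDetected (OutAut (FreeGroup ι)) :=
  IntDetected.outAut (classSep_freeGroup ι) (propertyA_freeGroup ι)

end free

end Pool.Agent.Lib.MP_8f66f0_al_Aut
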