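import Mathlib
import Pool.Agent.Lib.MP_8f66f0_al_Aut.Conj
import Pool.Agent.Lib.MP_8f66f0_al_Aut.Sep

/-! Free groups are residually unitriangular. -/

set_option autoImplicit false
set_option linter.unusedSectionVars false

namespace Pool.Agent.Lib.MP_8f66f0_al_Aut

section strict

variable {κ : Type*} [DecidableEq κ]

/-- Strictly upper triangular matrices attached to a word. -/
def nil (M : List (κ × Bool)) (k : κ) : Matrix (Fin (M.length + 1)) (Fin (M.length + 1)) ℤ :=
  Matrix.of fun i j => if j.val = i.val + 1 ∧ (M[i.val]?.map Prod.fst) = some k then 1 else 0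

lemma nil_mul_of_lt (M : List (κ × Bool)) (k : κ)
    (P : Matrix (Fin (M.length + 1)) (Fin (M.length + 1)) ℤ) (i j : Fin (M.length + 1))
    (hi : i.val < M.length) : (nil M k * P) i j =
      if (M[i.val]).1 = k then P ⟨i.val + 1, by omega⟩ j else 0 := by
  have h0 : (M[i.val]?.map Prod.fst) = some (M[i.val]).1 := by
    rw [List.getElem?_eq_getElem hi]
    rfl
  rw [Matrix.mul_apply, Finset.sum_eq_single ⟨i.val + 1, by omega⟩]
  · by_cases h : (M[i.val]).1 = k
    · rw [if_pos h, nil, Matrix.of_apply, if_pos ⟨rfl, by rw [h0, h]⟩, one_mul]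
    · rw [if_neg h, nil, Matrix.of_apply, if_neg, zero_mul]
      rintro ⟨-, h1⟩
      rw [h0] at h1
      exact h (Option.some_injective _ h1)
  · intro c _ hc
    rw [nil, Matrix.of_apply, if_neg, zero_mul]
    rintro ⟨h1, -⟩
    exact hc (Fin.ext h1)
  · intro h
    exact absurd (Finset.mem_univ _) h

lemma nil_mul_of_ge (M : List (κ × Bool)) (k : κ)
    (P : Matrix (Fin (M.length + 1)) (Fin (M.length + 1)) ℤ) (i j : Fin (M.length + 1))
    (hi : M.length ≤ i.val) : (nil M k * P) i j = 0 := by
  rw [Matrix.mul_apply]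
  refine Finset.sum_eq_zero fun c _ => ?_
  rw [nil, Matrix.of_apply, if_neg, zero_mul]
  rintro ⟨-, h1⟩
  rw [List.getElem?_eq_none hi] at h1
  exact absurd h1 (by simp)

lemma nil_sq {M : List (κ × Bool)} (hM : M.IsChain fun a b => a.1 ≠ b.1) (k : κ) :
    nil M k * nil M k = 0 := by
  ext i j
  rw [Matrix.zero_apply]
  rcases Nat.lt_or_ge i.val M.length with hi | hi
  · rw [nil_mul_of_lt M k _ i j hi]
    by_cases h : (M[i.val]).1 = k
    · rw [if_pos h, nil, Matrix.of_apply, if_neg]
      rintro ⟨-, h1⟩
      dsimp only at h1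
      rcases Nat.lt_or_ge (i.val + 1) M.length with h2 | h2
      · rw [List.getElem?_eq_getElem h2] at h1
        have h3 : (M[i.val + 1]).1 = k := Option.some_injective _ h1
        rw [List.isChain_iff_getElem] at hM
        exact hM i.val h2 (h.trans h3.symm)
      · rw [List.getElem?_eq_none h2] at h1
        exact absurd h1 (by simp)
    · rw [if_neg h]
  · rw [nil_mul_of_ge M k _ i j hi]

/-- The generators. -/
def genV {E : Type*} [Ring E] {N : κ → E} (h : ∀ k, N k * N k = 0) (k : κ) : Eˣ where
  val := 1 + N k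
  inv := 1 - N k
  val_inv := by
    rw [add_mul, one_mul, mul_sub, mul_one, h]
    abel
  inv_val := by
    rw [sub_mul, one_mul, mul_add, mul_one, h]
    abel

/-- The representation. -/
def repV {E : Type*} [Ring E] {N : κ → E} (h : ∀ k, N k * N k = 0) : FreeGroup κ →* Eˣ :=
  FreeGroup.lift (genV h)

lemma repV_mk {E : Type*} [Ring E] {N : κ → E} (h : ∀ k, N k * N k = 0)
    (L : List (κ × Bool)) :
    (repV h (FreeGroup.mk L)).val = (L.map fun l => 1 + (sgn l • N l.1)).prod := by
  induction L with
  | nil =>
    rw [← FreeGroup.one_eq_mk, map_one]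
    rfl
  | cons l L ih =>
    have h1 : FreeGroup.mk (l :: L) = FreeGroup.mk [l] * FreeGroup.mk L := by
      rw [FreeGroup.mul_mk]
      rfl
    rw [h1, map_mul, Units.val_mul, ih, List.map_cons, List.prod_cons]
    congr 1
    obtain ⟨k, b⟩ := l
    cases b
    · have h2 : (FreeGroup.mk [(k, false)] : FreeGroup κ) = (FreeGroup.of k)⁻¹ := by
        rw [FreeGroup.of, FreeGroup.inv_mk]
        rfl
      rw [h2, map_inv, repV, FreeGroup.lift_apply_of]
      change (1 - N k : E) = 1 + ((-1 : ℤ) • N k)
      rw [neg_smul, one_smul, sub_eq_add_neg]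
    · have h2 : (FreeGroup.mk [(k, true)] : FreeGroup κ) = FreeGroup.of k := rfl
      rw [h2, repV, FreeGroup.lift_apply_of]
      change (1 + N k : E) = 1 + ((1 : ℤ) • N k)
      rw [one_smul]

lemma isUnitri_one {m : ℕ} : IsUnitri (1 : Matrix (Fin m) (Fin m) ℤ) := fun _ _ _ => rfl

lemma isUnitri_mul {m : ℕ} {P Q : Matrix (Fin m) (Fin m) ℤ} (hP : IsUnitri P)
    (hQ : IsUnitri Q) : IsUnitri (P * Q) := by
  intro i j hij
  rw [Matrix.mul_apply, Finset.sum_eq_single i]
  · rw [hP i i le_rfl, hQ i j hij, Matrix.one_apply_eq, one_mul]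
  · intro c _ hc
    rcases lt_or_gt_of_ne hc with h | h
    · rw [hP i c h.le, Matrix.one_apply_ne (ne_of_gt h), zero_mul]
    · rw [hQ c j (hij.trans h.le), Matrix.one_apply_ne (ne_of_gt (lt_of_le_of_lt hij h)), mul_zero]
  · intro h
    exact absurd (Finset.mem_univ _) h

lemma isUnitri_prod {m : ℕ} (L : List (Matrix (Fin m) (Fin m) ℤ)) (h : ∀ P ∈ L, IsUnitri P) :
    IsUnitri L.prod := by
  induction L with
  | nil => exact isUnitri_one
  | cons P L ih =>
    rw [List.prod_cons]
    exact isUnitri_mul (h P (by simp)) (ih fun Q hQ => h Q (by simp [hQ]))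

lemma isUnitri_gen (M : List (κ × Bool)) (l : κ × Bool) :
    IsUnitri (1 + sgn l • nil M l.1) := by
  intro i j hij
  rw [Matrix.add_apply, Matrix.smul_apply, nil, Matrix.of_apply, if_neg, smul_zero, add_zero]
  rintro ⟨h1, -⟩
  rw [Fin.le_def] at hij
  omega

lemma isUnitri_repV {M : List (κ × Bool)} (hM : M.IsChain fun a b => a.1 ≠ b.1)
    (g : FreeGroup κ) : IsUnitri (repV (nil_sq hM) g).val := by
  rw [← FreeGroup.mk_toWord (x := g), repV_mk]
  apply isUnitri_prod
  intro P hP
  obtain ⟨l, -, rfl⟩ := List.mem_map.mp hP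
  exact isUnitri_gen M l

lemma entry_far (M : List (κ × Bool)) (L : List (κ × Bool)) (a b : Fin (M.length + 1))
    (hab : a.val + L.length < b.val) :
    (L.map fun l => 1 + (sgn l • nil M l.1)).prod a b = 0 := by
  induction L generalizing a with
  | nil =>
    rw [List.map_nil, List.prod_nil, Matrix.one_apply_ne]
    rintro rfl
    simp at hab
  | cons l L ih =>
    rw [List.length_cons] at hab
    rw [List.map_cons, List.prod_cons, add_mul, one_mul, smul_mul_assoc, Matrix.add_apply,
      Matrix.smul_apply, ih a (by omega), zero_add]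
    rcases Nat.lt_or_ge a.val M.length with hi | hi
    · rw [nil_mul_of_lt M _ _ a b hi]
      split
      · rw [ih _ (by dsimp only; omega), smul_zero]
      · rw [smul_zero]
    · rw [nil_mul_of_ge M _ _ a b hi, smul_zero]

/-- Entries of products. -/
lemma entry_prod (M : List (κ × Bool)) (n : ℕ) : ∀ (i : ℕ) (hi : i + n = M.length),
    (((M.drop i).map fun l => 1 + (sgn l • nil M l.1)).prod ⟨i, by omega⟩ ⟨M.length, by omega⟩ =
      ((M.drop i).map sgn).prod) := by
  induction n with
  | zero =>
    intro i hi
    have h1 : M.drop i = [] := List.drop_eq_nil_of_le (by omega)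
    have h2 : (⟨i, by omega⟩ : Fin (M.length + 1)) = ⟨M.length, by omega⟩ := Fin.ext (by simpa using hi)
    rw [h1, List.map_nil, List.prod_nil, List.map_nil, List.prod_nil, h2, Matrix.one_apply_eq]
  | succ n ih =>
    intro i hi
    have hlt : i < M.length := by omega
    rw [List.drop_eq_getElem_cons hlt, List.map_cons, List.prod_cons, add_mul, one_mul,
      smul_mul_assoc, Matrix.add_apply, Matrix.smul_apply, entry_far, zero_add,
      nil_mul_of_lt M _ _ _ _ hlt, if_pos rfl, ih (i + 1) (by omega), List.map_cons,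
      List.prod_cons, smul_eq_mul]
    rw [List.length_drop]
    dsimp only
    omega

lemma repV_ne_one {M : List (κ × Bool)} (hM : M.IsChain fun a b => a.1 ≠ b.1) (h0 : M ≠ []) :
    (repV (nil_sq hM) (FreeGroup.mk M)).val ≠ 1 := by
  intro h
  rw [repV_mk] at h
  have h1 := entry_prod M M.length 0 (by omega)
  rw [List.drop_zero, h, Matrix.one_apply_ne] at h1
  · exact sgn_prod_ne M h1.symm
  · intro h2
    have h3 := congrArg Fin.val h2
    dsimp only at h3
    exact h0 (List.length_eq_zero_iff.mp h3.symm)

end strict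

section free

variable {ι : Type*}

lemma block_chain (l : ι × Bool) : (block l).IsChain fun a b => a.1 ≠ b.1 := by
  obtain ⟨i, b⟩ := l
  cases b
  · change List.IsChain _ [((i, 2), false), ((i, 1), false), ((i, 0), false)]
    simp
  · change List.IsChain _ [((i, 0), true), ((i, 1), true), ((i, 2), true)]
    simp

lemma block_getLast (l : ι × Bool) (a : (ι × Fin 3) × Bool) (ha : a ∈ (block l).getLast?) :
    a.1 = (l.1, if l.2 then 2 else 0) := by
  obtain ⟨i, b⟩ := l
  cases b
  · have : ((i, 0), false) = a := by simpa [block] using ha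
    rw [← this]
    rfl
  · have : ((i, 2), true) = a := by simpa [block] using ha
    rw [← this]
    rfl

lemma block_head (l : ι × Bool) (a : (ι × Fin 3) × Bool) (ha : a ∈ (block l).head?) :
    a.1 = (l.1, if l.2 then 0 else 2) := by
  obtain ⟨i, b⟩ := l
  cases b
  · have : ((i, 2), false) = a := by simpa [block] using ha
    rw [← this]
    rfl
  · have : ((i, 0), true) = a := by simpa [block] using ha
    rw [← this]
    rfl

lemma flatMap_chain {L : List (ι × Bool)} (hL : FreeGroup.IsReduced L) :
    (L.flatMap block).IsChain fun a b => a.1 ≠ b.1 := by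
  induction L with
  | nil => exact List.isChain_nil
  | cons l L ih =>
    rw [FreeGroup.IsReduced, List.isChain_cons] at hL
    rw [List.flatMap_cons, List.isChain_append]
    refine ⟨block_chain l, ih hL.2, ?_⟩
    intro a ha b hb
    cases L with
    | nil => simp at hb
    | cons l' L =>
      have hb' : b ∈ (block l').head? := by
        rw [List.flatMap_cons, List.head?_append] at hb
        have h3 : (block l').head? ≠ none := by
          rw [Ne, List.head?_eq_none_iff]
          intro h4
          have := block_length l'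
          rw [h4] at this
          simp at this
        obtain ⟨c, hc⟩ := Option.ne_none_iff_exists'.mp h3
        rw [hc] at hb ⊢
        simpa using hb
      rw [block_getLast l a ha, block_head l' b hb']
      intro h
      obtain ⟨h1, h2⟩ := Prod.mk.inj h
      have h3 : l.2 = l'.2 := hL.1 l' (by simp) h1
      rw [h3] at h2
      generalize l'.2 = c at h2
      revert c
      decide

/-- Free groups are residually unitriangular. -/
theorem resUnip_freeGroup (ι : Type*) : ResUnip (FreeGroup ι) := by
  classical
  intro g hg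
  have hchain := flatMap_chain (FreeGroup.isReduced_toWord (x := g))
  refine ⟨_, (Units.coeHom _).comp ((repV (nil_sq hchain)).comp (emb ι)),
    fun h => isUnitri_repV hchain _, ?_⟩
  rw [MonoidHom.comp_apply, MonoidHom.comp_apply]
  have h1 : emb ι g = FreeGroup.mk (g.toWord.flatMap block) := by
    rw [← emb_mk, FreeGroup.mk_toWord]
  rw [h1]
  apply repV_ne_one hchain
  intro h2
  have h3 := flatMap_block_length g.toWord
  rw [h2, List.length_nil] at h3
  have h4 : g.toWord = [] := List.length_eq_zero_iff.mp (by omega)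
  exact hg (FreeGroup.toWord_eq_nil_iff.mp h4)

end free

end Pool.Agent.Lib.MP_8f66f0_al_Aut
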