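import Mathlib
import Pool.Agent.Lib.MP_8f66f0_al_Aut.Closure
import Pool.Agent.Lib.MP_8f66f0_al_Aut.Out
import Pool.Agent.Lib.MP_8f66f0_al_Aut.ResFree

/-! The class of groups obtained from automorphism groups. -/

set_option autoImplicit false
set_option linter.unusedSectionVars false

namespace Pool.Agent.Lib.MP_8f66f0_al_Aut

/-- The smallest class of groups which contains the holomorphs `F ⋊ Aut F` of the finitely
generated groups `F` which are residually unitriangular over the integers and the outer
automorphism groups of the free groups of finite rank, and is closed under subgroups (and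
isomorphic groups), finite direct products and finite index overgroups. -/
inductive AutClass.{u} : ∀ (G : Type u) [Group G], Prop
  | hol (F : Type u) [Group F] [Group.FG F] (hF : ResUnip F) :
      AutClass (F ⋊[MonoidHom.id (MulAut F)] MulAut F)
  | out (ι : Type u) [Finite ι] : AutClass (OutAut (FreeGroup ι))
  | prod (G K : Type u) [Group G] [Group K] (hG : AutClass G) (hK : AutClass K) :
      AutClass (G × K)
  | sub (G K : Type u) [Group G] [Group K] (φ : K →* G) (hφ : Function.Injective φ)
      (hG : AutClass G) : AutClass K
  | virt (G : Type u) [Group G] (H : Subgroup G) [H.FiniteIndex] (hH : AutClass H) : AutClass G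

theorem AutClass.intDetected.{u} {G : Type u} [Group G] (h : AutClass G) : IntDetected G := by
  induction h with
  | hol F hF => exact IntDetected.hol hF.polySep
  | out ι => exact intDetected_outFree ι
  | prod G K _ _ hG hK => exact IntDetected.prod hG hK
  | sub G K φ hφ _ hG => exact IntDetected.of_injective hG φ hφ
  | virt G H _ hH => exact IntDetected.of_finiteIndex H hH

/-- Automorphism groups. -/
theorem AutClass.aut.{u} (F : Type u) [Group F] [Group.FG F] (hF : ResUnip F) :
    AutClass (MulAut F) :=
  AutClass.sub _ _ SemidirectProduct.inr SemidirectProduct.inr_injective (AutClass.hol F hF)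

/-- Finitely generated residually unitriangular groups. -/
theorem AutClass.self.{u} (F : Type u) [Group F] [Group.FG F] (hF : ResUnip F) :
    AutClass F :=
  AutClass.sub _ _ SemidirectProduct.inl SemidirectProduct.inl_injective (AutClass.hol F hF)

/-- Automorphism groups of free groups of finite rank. -/
theorem AutClass.autFree.{u} (ι : Type u) [Finite ι] : AutClass (MulAut (FreeGroup ι)) :=
  AutClass.aut _ (resUnip_freeGroup ι)

end Pool.Agent.Lib.MP_8f66f0_al_Aut
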